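import Pool.Agent.SzT.Inc

/-!
Project SzT, module CntA: the number of pairs with a given area.

PAPER PROOF. Let `s > 0` and `(u j - u k) ^ 2 / |w j - w k| = s`, so `w j ≠ w k`. If `w j - w k > 0`: `(u j - u k) ^ 2 = s (w j - w k)`, that is `w j - u j ^ 2 / s = (w k + u k ^ 2 / s) + (- 2 u k / s) * u j`: the point `(u j, w j - u j ^ 2 / s)`
is on the line with `α k = w k + u k ^ 2 / s`, `β k = - 2 u k / s`, and `β` is injective because `u` is. If `w j - w k < 0` exchange `j` and `k`. So the number is at most twice `inc_le`.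
-/

set_option autoImplicit false

namespace Pool.Agent.SzT

open Finset

open Classical in
private theorem half_area {ι : Type} (J : Finset ι) (u w : ι → ℝ) (hu : Set.InjOn u (J : Set ι)) {n : ℕ} (hn : 1 ≤ n)
    (hJ : J.card ≤ n) {s : ℝ} (hs : 0 < s) :
    (((J ×ˢ J).filter fun q => 0 < w q.1 - w q.2 ∧ (u q.1 - u q.2) ^ 2 / |w q.1 - w q.2| = s).card : ℝ) ≤
      5 * (n : ℝ) ^ (4 / 3 : ℝ) := by
  have hβ : Set.InjOn (fun k => -(2 * u k) / s) (J : Set ι) := by
    intro a ha b hb h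
    apply hu ha hb
    have h1 : -(2 * u a) / s = -(2 * u b) / s := h
    field_simp at h1
    linarith
  have key := inc_le u (fun j => w j - u j ^ 2 / s) (fun k => w k + u k ^ 2 / s) (fun k => -(2 * u k) / s) J J hu hβ
    hn hJ hJ
  refine le_trans ?_ key
  norm_cast
  apply Finset.card_le_card
  intro q hq
  rw [Finset.mem_filter] at hq ⊢
  obtain ⟨h1, h2, h3⟩ := hq
  refine ⟨h1, ?_⟩
  show w q.1 - u q.1 ^ 2 / s = (w q.2 + u q.2 ^ 2 / s) + (-(2 * u q.2) / s) * u q.1
  rw [abs_of_pos h2, div_eq_iff h2.ne'] at h3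
  field_simp
  nlinarith [h3]

open Classical in
theorem cnt_area {ι : Type} (J : Finset ι) (u w : ι → ℝ) (hu : Set.InjOn u (J : Set ι)) {n : ℕ} (hn : 1 ≤ n) (hJ : J.card ≤ n)
    {s : ℝ} (hs : 0 < s) :
    (((J ×ˢ J).filter fun q => (u q.1 - u q.2) ^ 2 / |w q.1 - w q.2| = s).card : ℝ) ≤ 10 * (n : ℝ) ^ (4 / 3 : ℝ) := by
  have h1 := half_area J u w hu hn hJ hs
  set F := (J ×ˢ J).filter fun q => 0 < w q.1 - w q.2 ∧ (u q.1 - u q.2) ^ 2 / |w q.1 - w q.2| = s with hF
  have hsub : ((J ×ˢ J).filter fun q => (u q.1 - u q.2) ^ 2 / |w q.1 - w q.2| = s) ⊆ F ∪ F.image Prod.swap := by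
    intro q hq
    rw [Finset.mem_filter, Finset.mem_product] at hq
    obtain ⟨⟨m1, m2⟩, h3⟩ := hq
    rw [Finset.mem_union]
    have hne : w q.1 - w q.2 ≠ 0 := by
      intro h0
      rw [h0, abs_zero, div_zero] at h3
      exact hs.ne h3
    rcases lt_or_gt_of_ne hne with h4 | h4
    · right
      rw [Finset.mem_image]
      refine ⟨q.swap, ?_, Prod.swap_swap q⟩
      rw [hF, Finset.mem_filter, Finset.mem_product]
      refine ⟨⟨m2, m1⟩, ?_, ?_⟩
      · show 0 < w q.2 - w q.1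
        linarith
      · show (u q.2 - u q.1) ^ 2 / |w q.2 - w q.1| = s
        rw [abs_sub_comm, ← h3]
        congr 1
        ring
    · left
      rw [hF, Finset.mem_filter, Finset.mem_product]
      exact ⟨⟨m1, m2⟩, h4, h3⟩
  have hc : ((J ×ˢ J).filter fun q => (u q.1 - u q.2) ^ 2 / |w q.1 - w q.2| = s).card ≤ F.card + F.card :=
    (Finset.card_le_card hsub).trans ((Finset.card_union_le _ _).trans (Nat.add_le_add_left Finset.card_image_le _))
  have hc' : (((J ×ˢ J).filter fun q => (u q.1 - u q.2) ^ 2 / |w q.1 - w q.2| = s).card : ℝ) ≤ (F.card : ℝ) + F.card := by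
    exact_mod_cast hc
  linarith

end Pool.Agent.SzT
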