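import Mathlib

/-!
Project SzT, module CntB: the number of triples `j, k, l` with equal areas `(j, k)` and `(j, l)`.

PAPER PROOF. For `j ≠ k` in `J` let `g j k = (u j - u k) ^ 2 / (w j - w k)`, which is not 0. `M2 = #{(j, k, l) | k ≠ j, l ≠ j, g j k = g j l}`, `M3 = #{(j, k, l, m) | k, l, m ≠ j, g j k = g j l = g j m}`, `M1 = #{(j, k) | k ≠ j} ≤ n ^ 2`.
(1) `M2 ^ 2 ≤ M1 * M3`: with `N (j, k) = #{l ≠ j | g j l = g j k}` (for `k ≠ j`): `M2 = ∑ N (j, k)` and `M3 = ∑ N (j, k) ^ 2` over the pairs `k ≠ j`; Cauchy-Schwarz (`sum_mul_sq_le_sq_mul_sq` or `inner_mul_le_norm_mul_norm`; `sq_sum_le_card_mul_sum_sq`).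
(2) `M3 ≤ n ^ 3 + 3 M2`: the quadruples with two equal among `k, l, m` are at most `3 M2`; for different `k, l, m` the map `(j, k, l, m) ↦ (k, l, m)` is injective: with `s = g j k`, `(u - u j) ^ 2 = s (w j - w)` holds at the three points `(u k, w k)`, `(u l, w l)`,
`(u m, w m)`, so `w = w j - (u - u j) ^ 2 / s` at three different `u`; if `j', s'` do the same, the two quadratic polynomials in `u` are equal: `1 / s = 1 / s'`, `u j / s = u j' / s'`, so `u j = u j'`, `j = j'` (three different abscissae: subtract, divide by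
the differences; or a polynomial of degree at most 2 with three roots).
(3) So `M2 ^ 2 ≤ n ^ 5 + 3 n ^ 2 M2`, hence `M2 ≤ n ^ (5/2) + 3 n ^ 2 ≤ 4 n ^ (5/2)`.
(4) `abs_pairs`: `#{(k, l) | g k = - g l} = ∑ v, N(v) N(-v) ≤ ∑ v, (N(v) ^ 2 + N(-v) ^ 2) / 2 = #{(k, l) | g k = g l}`, so `#{|g k| = |g l|} ≤ 2 #{g k = g l}`. For the triples: sum over `j` (the quotient with `|w j - w k|` is `|g j k|`): at most `2 M2`.
-/

set_option autoImplicit false

namespace Pool.Agent.SzT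

open Finset

open Classical in
private theorem neg_pairs {ι : Type} (K : Finset ι) (g : ι → ℝ) :
    ((K ×ˢ K).filter fun q => g q.1 = -g q.2).card ≤ ((K ×ˢ K).filter fun q => g q.1 = g q.2).card := by
  obtain ⟨V, hV⟩ : ∃ V : Finset ℝ, V = K.image g ∪ K.image (fun k => -g k) := ⟨_, rfl⟩
  have hVneg : ∀ v ∈ V, -v ∈ V := by
    intro v hv
    rw [hV, mem_union, mem_image, mem_image] at hv ⊢
    rcases hv with ⟨k, hk, rfl⟩ | ⟨k, hk, rfl⟩
    · exact Or.inr ⟨k, hk, rfl⟩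
    · exact Or.inl ⟨k, hk, (neg_neg _).symm⟩
  have hVg : ∀ k ∈ K, g k ∈ V := by
    intro k hk
    rw [hV]
    exact mem_union_left _ (mem_image_of_mem _ hk)
  obtain ⟨N, hN⟩ : ∃ N : ℝ → ℕ, ∀ v, N v = (K.filter fun k => g k = v).card := ⟨_, fun _ => rfl⟩
  have e1 : ((K ×ˢ K).filter fun q => g q.1 = g q.2).card = ∑ v ∈ V, N v * N v := by
    rw [card_eq_sum_card_fiberwise (f := fun q : ι × ι => g q.1) (t := V)]
    · refine sum_congr rfl fun v _ => ?_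
      rw [hN, ← card_product]
      refine congrArg card ?_
      ext q
      simp only [mem_filter, mem_product]
      constructor
      · rintro ⟨⟨⟨h1, h2⟩, h3⟩, h4⟩
        exact ⟨⟨h1, h4⟩, h2, h3 ▸ h4⟩
      · rintro ⟨⟨h1, h4⟩, h2, h3⟩
        exact ⟨⟨⟨h1, h2⟩, h4.trans h3.symm⟩, h4⟩
    · intro q hq
      exact hVg _ (mem_product.1 (mem_filter.1 hq).1).1
  have e2 : ((K ×ˢ K).filter fun q => g q.1 = -g q.2).card = ∑ v ∈ V, N v * N (-v) := by
    rw [card_eq_sum_card_fiberwise (f := fun q : ι × ι => g q.1) (t := V)]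
    · refine sum_congr rfl fun v _ => ?_
      rw [hN, hN, ← card_product]
      refine congrArg card ?_
      ext q
      simp only [mem_filter, mem_product]
      constructor
      · rintro ⟨⟨⟨h1, h2⟩, h3⟩, h4⟩
        exact ⟨⟨h1, h4⟩, h2, by linarith⟩
      · rintro ⟨⟨h1, h4⟩, h2, h3⟩
        exact ⟨⟨⟨h1, h2⟩, by linarith⟩, h4⟩
    · intro q hq
      exact hVg _ (mem_product.1 (mem_filter.1 hq).1).1
  have e3 : ∑ v ∈ V, N (-v) * N (-v) = ∑ v ∈ V, N v * N v := by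
    refine sum_nbij (fun v => -v) hVneg ?_ ?_ ?_
    · intro a _ b _ h
      exact neg_injective h
    · intro v hv
      exact ⟨-v, hVneg v hv, neg_neg v⟩
    · intro v _
      rfl
  have e4 : 2 * ∑ v ∈ V, N v * N (-v) ≤ ∑ v ∈ V, N v * N v + ∑ v ∈ V, N (-v) * N (-v) := by
    rw [mul_sum, ← sum_add_distrib]
    refine sum_le_sum fun v _ => ?_
    nlinarith [sq_nonneg ((N v : ℤ) - N (-v)), two_mul_le_add_sq (N v) (N (-v))]
  rw [e1, e2]
  omega

open Classical in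
theorem abs_pairs {ι : Type} (K : Finset ι) (g : ι → ℝ) :
    ((K ×ˢ K).filter fun q => |g q.1| = |g q.2|).card ≤ 2 * ((K ×ˢ K).filter fun q => g q.1 = g q.2).card := by
  have h1 : ((K ×ˢ K).filter fun q => |g q.1| = |g q.2|) ⊆
      ((K ×ˢ K).filter fun q => g q.1 = g q.2) ∪ ((K ×ˢ K).filter fun q => g q.1 = -g q.2) := by
    intro q hq
    rw [mem_filter] at hq
    rw [mem_union, mem_filter, mem_filter]
    rcases abs_eq_abs.1 hq.2 with h | h
    · exact Or.inl ⟨hq.1, h⟩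
    · exact Or.inr ⟨hq.1, h⟩
  have h2 := (card_le_card h1).trans (card_union_le _ _)
  have h3 := neg_pairs K g
  omega

private theorem quad_zero {A B C x y z : ℝ} (hxy : x ≠ y) (hxz : x ≠ z) (hyz : y ≠ z)
    (h1 : A * x ^ 2 + B * x + C = 0) (h2 : A * y ^ 2 + B * y + C = 0)
    (h3 : A * z ^ 2 + B * z + C = 0) : A = 0 ∧ B = 0 := by
  have e1 : (x - y) * (A * (x + y) + B) = 0 := by linear_combination h1 - h2
  have e2 : (x - z) * (A * (x + z) + B) = 0 := by linear_combination h1 - h3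
  have f1 := (mul_eq_zero.1 e1).resolve_left (sub_ne_zero.2 hxy)
  have f2 := (mul_eq_zero.1 e2).resolve_left (sub_ne_zero.2 hxz)
  have e3 : (y - z) * A = 0 := by linear_combination f1 - f2
  have hA := (mul_eq_zero.1 e3).resolve_left (sub_ne_zero.2 hyz)
  refine ⟨hA, ?_⟩
  rw [hA, zero_mul, zero_add] at f1
  exact f1

/-- The parabola through three points. -/
private theorem par_eq {ι : Type} {J : Finset ι} {u w : ι → ℝ} (hu : Set.InjOn u (J : Set ι))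
    (hw : Set.InjOn w (J : Set ι)) {j k l m : ι} (hj : j ∈ J) (hk : k ∈ J) (hl : l ∈ J) (hm : m ∈ J)
    (jk : k ≠ j) (jl : l ≠ j) (jm : m ≠ j)
    (h1 : (u j - u l) ^ 2 / (w j - w l) = (u j - u k) ^ 2 / (w j - w k))
    (h2 : (u j - u m) ^ 2 / (w j - w m) = (u j - u k) ^ 2 / (w j - w k)) :
    ∃ a : ℝ, a ≠ 0 ∧ w k = w j - a * (u j - u k) ^ 2 ∧ w l = w j - a * (u j - u l) ^ 2 ∧
      w m = w j - a * (u j - u m) ^ 2 := by
  have hne : ∀ i ∈ J, i ≠ j → w j - w i ≠ 0 ∧ (u j - u i) ^ 2 ≠ 0 := by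
    intro i hi hij
    refine ⟨sub_ne_zero.2 fun h => hij (hw hi hj h.symm), pow_ne_zero 2 (sub_ne_zero.2 fun h =>
      hij (hu hi hj h.symm))⟩
  obtain ⟨s, hs⟩ : ∃ s, s = (u j - u k) ^ 2 / (w j - w k) := ⟨_, rfl⟩
  have hs0 : s ≠ 0 := by
    rw [hs]
    exact div_ne_zero (hne k hk jk).2 (hne k hk jk).1
  rw [← hs] at h1 h2
  have key : ∀ i ∈ J, i ≠ j → (u j - u i) ^ 2 / (w j - w i) = s →
      w i = w j - s⁻¹ * (u j - u i) ^ 2 := by
    intro i hi hij h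
    rw [div_eq_iff (hne i hi hij).1] at h
    rw [h, ← mul_assoc, inv_mul_cancel₀ hs0, one_mul]
    ring
  exact ⟨s⁻¹, inv_ne_zero hs0, key k hk jk hs.symm, key l hl jl h1, key m hm jm h2⟩

private theorem par_inj {ι : Type} {J : Finset ι} {u w : ι → ℝ} (hu : Set.InjOn u (J : Set ι))
    (hw : Set.InjOn w (J : Set ι)) {j j' k l m : ι} (hj : j ∈ J) (hj' : j' ∈ J) (hk : k ∈ J)
    (hl : l ∈ J) (hm : m ∈ J) (hkl : k ≠ l) (hkm : k ≠ m) (hlm : l ≠ m)
    (jk : k ≠ j) (jl : l ≠ j) (jm : m ≠ j) (jk' : k ≠ j') (jl' : l ≠ j') (jm' : m ≠ j')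
    (h1 : (u j - u l) ^ 2 / (w j - w l) = (u j - u k) ^ 2 / (w j - w k))
    (h2 : (u j - u m) ^ 2 / (w j - w m) = (u j - u k) ^ 2 / (w j - w k))
    (h1' : (u j' - u l) ^ 2 / (w j' - w l) = (u j' - u k) ^ 2 / (w j' - w k))
    (h2' : (u j' - u m) ^ 2 / (w j' - w m) = (u j' - u k) ^ 2 / (w j' - w k)) : j = j' := by
  obtain ⟨a, ha, e1, e2, e3⟩ := par_eq hu hw hj hk hl hm jk jl jm h1 h2
  obtain ⟨b, hb, f1, f2, f3⟩ := par_eq hu hw hj' hk hl hm jk' jl' jm' h1' h2'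
  have ne : ∀ x ∈ J, ∀ y ∈ J, x ≠ y → u x ≠ u y := fun x hx y hy hxy h => hxy (hu hx hy h)
  obtain ⟨hA, hB⟩ := quad_zero (A := b - a) (B := 2 * a * u j - 2 * b * u j')
    (C := w j - a * u j ^ 2 - w j' + b * u j' ^ 2) (ne k hk l hl hkl) (ne k hk m hm hkm)
    (ne l hl m hm hlm) (by linear_combination f1 - e1) (by linear_combination f2 - e2)
    (by linear_combination f3 - e3)
  have hab : b = a := by linarith
  rw [hab] at hB
  have h3 : 2 * a * (u j - u j') = 0 := by linear_combination hB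
  have h4 := (mul_eq_zero.1 h3).resolve_left (mul_ne_zero two_ne_zero ha)
  exact hu hj hj' (sub_eq_zero.1 h4)

open Classical in
theorem cnt_iso {ι : Type} (J : Finset ι) (u w : ι → ℝ) (hu : Set.InjOn u (J : Set ι)) (hw : Set.InjOn w (J : Set ι))
    {n : ℕ} (hn : 1 ≤ n) (hJ : J.card ≤ n) :
    (((J ×ˢ (J ×ˢ J)).filter fun q => q.2.1 ≠ q.1 ∧ q.2.2 ≠ q.1 ∧
      (u q.1 - u q.2.1) ^ 2 / |w q.1 - w q.2.1| = (u q.1 - u q.2.2) ^ 2 / |w q.1 - w q.2.2|).card : ℝ) ≤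
      8 * (n : ℝ) ^ (5 / 2 : ℝ) := by
  obtain ⟨g, hg⟩ : ∃ g : ι → ι → ℝ, ∀ j k, g j k = (u j - u k) ^ 2 / (w j - w k) := ⟨_, fun _ _ => rfl⟩
  have habs : ∀ j k, |g j k| = (u j - u k) ^ 2 / |w j - w k| := by
    intro j k
    rw [hg, abs_div, abs_of_nonneg (sq_nonneg _)]
  obtain ⟨D, hD⟩ : ∃ D : Finset (ι × ι), D = (J ×ˢ J).filter (fun q => q.2 ≠ q.1) := ⟨_, rfl⟩
  obtain ⟨L, hL⟩ : ∃ L : ι × ι → Finset ι, ∀ q, L q = J.filter (fun l => l ≠ q.1 ∧ g q.1 l = g q.1 q.2) :=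
    ⟨_, fun _ => rfl⟩
  -- the number of triples
  have h2 : ((J ×ˢ (J ×ˢ J)).filter fun q => q.2.1 ≠ q.1 ∧ q.2.2 ≠ q.1 ∧
      (u q.1 - u q.2.1) ^ 2 / |w q.1 - w q.2.1| = (u q.1 - u q.2.2) ^ 2 / |w q.1 - w q.2.2|).card ≤
      2 * ∑ q ∈ D, (L q).card := by
    have e1 : ((J ×ˢ (J ×ˢ J)).filter fun q => q.2.1 ≠ q.1 ∧ q.2.2 ≠ q.1 ∧
        (u q.1 - u q.2.1) ^ 2 / |w q.1 - w q.2.1| = (u q.1 - u q.2.2) ^ 2 / |w q.1 - w q.2.2|).card ≤
        ∑ j ∈ J, (((J.erase j) ×ˢ (J.erase j)).filter fun q => |g j q.1| = |g j q.2|).card := by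
      rw [← card_sigma]
      refine card_le_card_of_injOn (fun q => ⟨q.1, q.2⟩) ?_ ?_
      · intro q hq
        obtain ⟨h1, h2, h3, h4⟩ := mem_filter.1 hq
        rw [mem_product, mem_product] at h1
        refine mem_sigma.2 ⟨h1.1, mem_filter.2 ⟨mem_product.2 ⟨mem_erase.2 ⟨h2, h1.2.1⟩,
          mem_erase.2 ⟨h3, h1.2.2⟩⟩, ?_⟩⟩
        change |g q.1 q.2.1| = |g q.1 q.2.2|
        rw [habs, habs]
        exact h4
      · intro q _ q' _ h
        have h5 := congrArg Sigma.fst h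
        have h6 : q.2 = q'.2 := by
          have := congrArg (fun x : (Σ _ : ι, ι × ι) => x.2) h
          exact this
        exact Prod.ext h5 h6
    have e2 : ∑ j ∈ J, (((J.erase j) ×ˢ (J.erase j)).filter fun q => |g j q.1| = |g j q.2|).card ≤
        2 * ∑ j ∈ J, (((J.erase j) ×ˢ (J.erase j)).filter fun q => g j q.1 = g j q.2).card := by
      rw [mul_sum]
      exact sum_le_sum fun j _ => abs_pairs (J.erase j) (g j)
    have e3 : ∑ j ∈ J, (((J.erase j) ×ˢ (J.erase j)).filter fun q => g j q.1 = g j q.2).card ≤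
        ∑ q ∈ D, (L q).card := by
      rw [← card_sigma, ← card_sigma]
      refine card_le_card_of_injOn (fun q => ⟨(q.1, q.2.1), q.2.2⟩) ?_ ?_
      · intro q hq
        obtain ⟨h1, h2⟩ := mem_sigma.1 hq
        obtain ⟨h3, h4⟩ := mem_filter.1 h2
        obtain ⟨h5, h6⟩ := mem_product.1 h3
        obtain ⟨h7, h8⟩ := mem_erase.1 h5
        obtain ⟨h9, h10⟩ := mem_erase.1 h6
        refine mem_sigma.2 ⟨?_, ?_⟩
        · rw [hD]
          exact mem_filter.2 ⟨mem_product.2 ⟨h1, h8⟩, h7⟩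
        · rw [hL]
          exact mem_filter.2 ⟨h10, h9, h4.symm⟩
      · intro q _ q' _ h
        have h5 : (q.1, q.2.1) = (q'.1, q'.2.1) := congrArg Sigma.fst h
        have h6 : q.2.2 = q'.2.2 := congrArg (fun x : (Σ _ : ι × ι, ι) => x.2) h
        obtain ⟨h7, h8⟩ := Prod.ext_iff.1 h5
        exact Sigma.ext h7 (heq_of_eq (Prod.ext h8 h6))
    omega
  -- the quadruples
  have h3 : ∑ q ∈ D, (L q).card ^ 2 ≤ J.card ^ 3 + 3 * ∑ q ∈ D, (L q).card := by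
    have e1 : ∀ q ∈ D, (L q).card ^ 2 ≤ ((L q).erase q.2).offDiag.card + 3 * (L q).card := by
      intro q hq
      rw [hD] at hq
      obtain ⟨h4, h5⟩ := mem_filter.1 hq
      have h6 : q.2 ∈ L q := by
        rw [hL]
        exact mem_filter.2 ⟨(mem_product.1 h4).2, h5, rfl⟩
      rw [offDiag_card, card_erase_of_mem h6]
      obtain ⟨c, hc⟩ : ∃ c, (L q).card = c + 1 := ⟨(L q).card - 1, by
        have := card_pos.2 ⟨_, h6⟩
        omega⟩
      rw [hc, Nat.add_sub_cancel]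
      have h7 : c ≤ c * c := Nat.le_mul_self c
      have h8 : (c + 1) ^ 2 = c * c + 2 * c + 1 := by ring
      rw [h8]
      omega
    have e2 : ∑ q ∈ D, ((L q).erase q.2).offDiag.card ≤ J.card ^ 3 := by
      have h4 : J.card ^ 3 = (J ×ˢ (J ×ˢ J)).card := by
        rw [card_product, card_product]
        ring
      rw [h4, ← card_sigma]
      refine card_le_card_of_injOn (fun q => (q.1.2, q.2.1, q.2.2)) ?_ ?_
      · intro q hq
        obtain ⟨h5, h6⟩ := mem_sigma.1 hq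
        rw [hD] at h5
        rw [mem_offDiag, mem_erase, mem_erase, hL, mem_filter, mem_filter] at h6
        exact mem_product.2 ⟨(mem_product.1 (mem_filter.1 h5).1).2,
          mem_product.2 ⟨h6.1.2.1, h6.2.1.2.1⟩⟩
      · rintro ⟨⟨j, k⟩, l, m⟩ hq ⟨⟨j', k'⟩, l', m'⟩ hq' h
        have h5 := Prod.ext_iff.1 h
        have h6 := Prod.ext_iff.1 h5.2
        obtain rfl : k = k' := h5.1
        obtain rfl : l = l' := h6.1
        obtain rfl : m = m' := h6.2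
        obtain ⟨a1, a2⟩ := mem_sigma.1 hq
        obtain ⟨b1, b2⟩ := mem_sigma.1 hq'
        rw [hD, mem_filter, mem_product] at a1 b1
        rw [mem_offDiag, mem_erase, mem_erase, hL, mem_filter, mem_filter] at a2 b2
        simp only [hg] at a1 a2 b1 b2
        have hjj : j = j' := par_inj hu hw a1.1.1 b1.1.1 a1.1.2 a2.1.2.1 a2.2.1.2.1
          (Ne.symm a2.1.1) (Ne.symm a2.2.1.1) a2.2.2 a1.2 a2.1.2.2.1 a2.2.1.2.2.1
          b1.2 b2.1.2.2.1 b2.2.1.2.2.1 a2.1.2.2.2 a2.2.1.2.2.2 b2.1.2.2.2 b2.2.1.2.2.2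
        subst hjj
        rfl
    have e3 := sum_le_sum e1
    rw [sum_add_distrib, ← mul_sum] at e3
    omega
  have h4 : (∑ q ∈ D, (L q).card) ^ 2 ≤ D.card * ∑ q ∈ D, (L q).card ^ 2 :=
    sq_sum_le_card_mul_sum_sq
  have h5 : D.card ≤ n ^ 2 := by
    rw [hD]
    refine (card_filter_le _ _).trans ?_
    rw [card_product, sq]
    exact Nat.mul_le_mul hJ hJ
  obtain ⟨M, hM⟩ : ∃ M, M = ∑ q ∈ D, (L q).card := ⟨_, rfl⟩
  rw [← hM] at h2 h3 h4
  have h6 : M ^ 2 ≤ n ^ 2 * (n ^ 3 + 3 * M) :=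
    h4.trans (Nat.mul_le_mul h5 (h3.trans (Nat.add_le_add (Nat.pow_le_pow_left hJ 3) le_rfl)))
  have hn1 : (1 : ℝ) ≤ n := by exact_mod_cast hn
  obtain ⟨y, hy⟩ : ∃ y : ℝ, y = (n : ℝ) ^ (5 / 2 : ℝ) := ⟨_, rfl⟩
  have hy2 : y ^ 2 = (n : ℝ) ^ 5 := by
    rw [hy, ← Real.rpow_natCast, ← Real.rpow_mul (by linarith), ← Real.rpow_natCast]
    norm_num
  have hy1 : (n : ℝ) ^ 2 ≤ y := by
    rw [hy, ← Real.rpow_natCast]
    exact Real.rpow_le_rpow_of_exponent_le hn1 (by norm_num)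
  have hy0 : 0 < y := lt_of_lt_of_le (by positivity) hy1
  have h7 : (M : ℝ) ^ 2 ≤ (n : ℝ) ^ 2 * ((n : ℝ) ^ 3 + 3 * M) := by exact_mod_cast h6
  have h8 : (M : ℝ) ^ 2 ≤ y ^ 2 + 3 * y * M := by
    have h9 : (n : ℝ) ^ 2 * ((n : ℝ) ^ 3 + 3 * M) = y ^ 2 + 3 * (n : ℝ) ^ 2 * M := by
      rw [hy2]
      ring
    have h10 : (n : ℝ) ^ 2 * M ≤ y * M := mul_le_mul_of_nonneg_right hy1 (Nat.cast_nonneg M)
    linarith
  have h9 : (M : ℝ) ≤ 4 * y := by
    by_contra hcon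
    push Not at hcon
    nlinarith
  rw [← hy]
  have h10 : ((((J ×ˢ (J ×ˢ J)).filter fun q => q.2.1 ≠ q.1 ∧ q.2.2 ≠ q.1 ∧
      (u q.1 - u q.2.1) ^ 2 / |w q.1 - w q.2.1| =
        (u q.1 - u q.2.2) ^ 2 / |w q.1 - w q.2.2|).card : ℕ) : ℝ) ≤ 2 * (M : ℝ) := by
    exact_mod_cast h2
  linarith

end Pool.Agent.SzT
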