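import Pool.Agent.SzT.Defs

/-!
Project SzT, module Cons: the graph of the consecutive points on the lines.

PAPER PROOF. `E` is the set of the pairs `(i, i')` in `P ×ˢ P` with `x i < x i'` such that for some `j ∈ L`, `i` and `i'` are on `j` and no `i'' ∈ P` on `j` has `x i < x i'' < x i'`. For `e ∈ E` with the line `j`, `ed e t = α j + β j * t` for all `t` (two points
determine the affine function); so `j` is determined by `e` (`β` is injective on `L`). `Gr`: by definition (`vert`: a vertex `z ∈ P` strictly between with `y z = ed e (x z)` would be on `j`).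
Incidences: for `j ∈ L` the points of `P` on `j`, except the one with the greatest abscissa, are the left ends of different edges of the line `j` (the right end is the next point); so the incidences inject into `L ⊕ E`, or: `∑ j ∈ L, (m j - 1) ≤ E.card`, the edges
of different lines being different.
Crossing pairs: `(e, f) ↦ (j e, j f)` is injective on the crossing pairs with values in `L ×ˢ L`: if `j e = j f` then `e`, `f` are different pairs of consecutive points of the same line and have disjoint interiors, so they do not cross;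
if `j ≠ j'`, the abscissa `t` of the crossing point is determined by `α j + β j * t = α j' + β j' * t`, and `e` is determined by `j` and `t` (consecutive points with `x e.1 < t < x e.2`).
-/

set_option autoImplicit false

namespace Pool.Agent.SzT

open Finset

/-- `e` is a pair of consecutive points of `P` on the line `j`. -/
private def Adj {ι κ : Type} (x y : ι → ℝ) (α β : κ → ℝ) (P : Finset ι) (j : κ) (e : ι × ι) : Prop :=
  e.1 ∈ P ∧ e.2 ∈ P ∧ x e.1 < x e.2 ∧ On x y α β e.1 j ∧ On x y α β e.2 j ∧
    ∀ z ∈ P, On x y α β z j → ¬ (x e.1 < x z ∧ x z < x e.2)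

private theorem adj_sl {ι κ : Type} {x y : ι → ℝ} {α β : κ → ℝ} {P : Finset ι} {j : κ} {e : ι × ι}
    (h : Adj x y α β P j e) : (y e.2 - y e.1) / (x e.2 - x e.1) = β j := by
  obtain ⟨-, -, h3, h4, h5, -⟩ := h
  unfold On at h4 h5
  rw [h4, h5, div_eq_iff (by linarith)]
  ring

private theorem adj_ed {ι κ : Type} {x y : ι → ℝ} {α β : κ → ℝ} {P : Finset ι} {j : κ} {e : ι × ι}
    (h : Adj x y α β P j e) (t : ℝ) : ed x y e t = α j + β j * t := by
  unfold ed
  rw [adj_sl h]
  obtain ⟨-, -, -, h4, -, -⟩ := h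
  unfold On at h4
  rw [h4]
  ring

private theorem adj_same {ι κ : Type} {x y : ι → ℝ} {α β : κ → ℝ} {P : Finset ι} (hx : Set.InjOn x (P : Set ι))
    {j : κ} {e f : ι × ι} (he : Adj x y α β P j e) (hf : Adj x y α β P j f) {t : ℝ} (h1 : x e.1 < t) (h2 : t < x e.2)
    (h3 : x f.1 < t) (h4 : t < x f.2) : e = f := by
  obtain ⟨a1, a2, a3, a4, a5, a6⟩ := he
  obtain ⟨b1, b2, b3, b4, b5, b6⟩ := hf
  have e1 : x e.1 = x f.1 := by
    rcases lt_trichotomy (x e.1) (x f.1) with h | h | h
    · exact absurd ⟨h, by linarith⟩ (a6 f.1 b1 b4)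
    · exact h
    · exact absurd ⟨h, by linarith⟩ (b6 e.1 a1 a4)
  have e2 : x e.2 = x f.2 := by
    rcases lt_trichotomy (x e.2) (x f.2) with h | h | h
    · exact absurd ⟨by linarith, h⟩ (b6 e.2 a2 a5)
    · exact h
    · exact absurd ⟨by linarith, h⟩ (a6 f.2 b2 b5)
  exact Prod.ext (hx a1 b1 e1) (hx a2 b2 e2)

open Classical in
theorem cons {ι κ : Type} (x y : ι → ℝ) (α β : κ → ℝ) (P : Finset ι) (L : Finset κ) (hx : Set.InjOn x (P : Set ι))
    (hβ : Set.InjOn β (L : Set κ)) : ∃ E : Finset (ι × ι), Gr x y P E ∧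
      ((P ×ˢ L).filter fun q => On x y α β q.1 q.2).card ≤ E.card + L.card ∧
      ((E ×ˢ E).filter fun q => Cr x y q.1 q.2).card ≤ L.card ^ 2 := by
  set E : Finset (ι × ι) := (P ×ˢ P).filter fun e => ∃ j ∈ L, Adj x y α β P j e with hE
  have hmem : ∀ e ∈ E, ∃ j ∈ L, Adj x y α β P j e := fun e he => (mem_filter.1 he).2
  have hin : ∀ e j, j ∈ L → Adj x y α β P j e → e ∈ E := fun e j hj h =>
    mem_filter.2 ⟨mem_product.2 ⟨h.1, h.2.1⟩, j, hj, h⟩
  have hline : ∀ e j j', j ∈ L → j' ∈ L → Adj x y α β P j e → Adj x y α β P j' e → j = j' := by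
    intro e j j' hj hj' h h'
    exact hβ hj hj' ((adj_sl h).symm.trans (adj_sl h'))
  refine ⟨E, ⟨hx, ?_, ?_⟩, ?_, ?_⟩
  · intro e he
    obtain ⟨j, -, h⟩ := hmem e he
    exact ⟨h.1, h.2.1, h.2.2.1⟩
  · intro e he z hz h1 h2 h3
    obtain ⟨j, -, h⟩ := hmem e he
    rw [adj_ed h] at h3
    exact h.2.2.2.2.2 z hz h3 ⟨h1, h2⟩
  · -- incidences
    set I := (P ×ˢ L).filter fun q => On x y α β q.1 q.2 with hI
    set I1 := I.filter fun q => ∃ i' ∈ P, On x y α β i' q.2 ∧ x q.1 < x i' with hI1
    have hsplit : I.card = I1.card + (I.filter fun q => ¬ ∃ i' ∈ P, On x y α β i' q.2 ∧ x q.1 < x i').card :=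
      (card_filter_add_card_filter_not _).symm
    have hIm : ∀ q ∈ I, q.1 ∈ P ∧ q.2 ∈ L ∧ On x y α β q.1 q.2 := by
      intro q hq
      have h1 := mem_filter.1 hq
      exact ⟨(mem_product.1 h1.1).1, (mem_product.1 h1.1).2, h1.2⟩
    have h2 : (I.filter fun q => ¬ ∃ i' ∈ P, On x y α β i' q.2 ∧ x q.1 < x i').card ≤ L.card := by
      refine card_le_card_of_injOn (fun q => q.2) ?_ ?_
      · intro q hq
        exact (hIm q (mem_filter.1 hq).1).2.1
      · intro q hq q' hq' hqq
        have a := mem_filter.1 hq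
        have b := mem_filter.1 hq'
        obtain ⟨a1, a2, a3⟩ := hIm q a.1
        obtain ⟨b1, b2, b3⟩ := hIm q' b.1
        have hqq' : q.2 = q'.2 := hqq
        have e1 : x q.1 = x q'.1 := by
          rcases lt_trichotomy (x q.1) (x q'.1) with h | h | h
          · exact absurd ⟨q'.1, b1, by rw [hqq']; exact b3, h⟩ a.2
          · exact h
          · exact absurd ⟨q.1, a1, by rw [← hqq']; exact a3, h⟩ b.2
        exact Prod.ext (hx a1 b1 e1) hqq'
    have hnext : ∀ q : ι × κ, q ∈ I1 → ∃ i', Adj x y α β P q.2 (q.1, i') := by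
      intro q hq
      have a := mem_filter.1 hq
      obtain ⟨a1, a2, a3⟩ := hIm q a.1
      obtain ⟨i0, hi0, hon0, hlt0⟩ := a.2
      obtain ⟨i', hi', hmin⟩ := exists_min_image (P.filter fun i' => On x y α β i' q.2 ∧ x q.1 < x i') x
        ⟨i0, mem_filter.2 ⟨hi0, hon0, hlt0⟩⟩
      obtain ⟨c1, c2, c3⟩ := mem_filter.1 hi'
      refine ⟨i', a1, c1, c3, a3, c2, ?_⟩
      rintro z hz hzon ⟨hz1, hz2⟩
      have := hmin z (mem_filter.2 ⟨hz, hzon, hz1⟩)
      exact absurd hz2 (not_lt.2 this)
    have h1 : I1.card ≤ E.card := by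
      refine card_le_card_of_injOn (fun q => if h : q ∈ I1 then (q.1, (hnext q h).choose) else (q.1, q.1)) ?_ ?_
      · intro q hq
        have hq' : q ∈ I1 := hq
        simp only [dif_pos hq']
        have a := mem_filter.1 hq'
        exact hin _ q.2 (hIm q a.1).2.1 (hnext q hq').choose_spec
      · intro q hq q' hq' hqq
        have g : q ∈ I1 := hq
        have g' : q' ∈ I1 := hq'
        simp only [dif_pos g, dif_pos g'] at hqq
        have s1 := (hnext q g).choose_spec
        have s2 := (hnext q' g').choose_spec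
        have f1 : q.1 = q'.1 := (Prod.mk.inj hqq).1
        rw [hqq] at s1
        have f2 := hline _ _ _ (hIm q (mem_filter.1 g).1).2.1 (hIm q' (mem_filter.1 g').1).2.1 s1 s2
        exact Prod.ext f1 f2
    omega
  · -- crossing pairs
    rcases isEmpty_or_nonempty κ with hκ | hκ
    · have hE0 : E = ∅ := by
        rw [eq_empty_iff_forall_notMem]
        intro e he
        obtain ⟨j, -, -⟩ := hmem e he
        exact hκ.elim j
      rw [hE0]
      simp
    · choose! J hJL hJA using hmem
      rw [sq, ← card_product]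
      refine card_le_card_of_injOn (fun q => (J q.1, J q.2)) ?_ ?_
      · intro q hq
        have a := mem_product.1 (mem_filter.1 hq).1
        exact mem_product.2 ⟨hJL _ a.1, hJL _ a.2⟩
      · intro q hq q' hq' hqq
        obtain ⟨a, hne, t, h1, h2, h3, h4, h5⟩ := mem_filter.1 hq
        obtain ⟨a', hne', t', h1', h2', h3', h4', h5'⟩ := mem_filter.1 hq'
        obtain ⟨ae, af⟩ := mem_product.1 a
        obtain ⟨ae', af'⟩ := mem_product.1 a'
        have g1 : J q.1 = J q'.1 := congrArg Prod.fst hqq
        have g2 : J q.2 = J q'.2 := congrArg Prod.snd hqq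
        have A1 := hJA q.1 ae
        have A2 := hJA q.2 af
        have B1 := hJA q'.1 ae'
        have B2 := hJA q'.2 af'
        rw [← g1] at B1
        rw [← g2] at B2
        have hJne : J q.1 ≠ J q.2 := by
          intro h
          rw [← h] at A2
          exact hne (adj_same hx A1 A2 h1 h2 h3 h4)
        have hβne : β (J q.1) ≠ β (J q.2) := fun h => hJne (hβ (hJL _ ae) (hJL _ af) h)
        rw [adj_ed A1, adj_ed A2] at h5
        rw [adj_ed B1, adj_ed B2] at h5'
        have htt : t = t' := by
          have h6 : (β (J q.1) - β (J q.2)) * (t - t') = 0 := by linarith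
          rcases mul_eq_zero.1 h6 with h7 | h7
          · exact absurd (sub_eq_zero.1 h7) hβne
          · linarith
        subst htt
        exact Prod.ext (adj_same hx A1 B1 h1 h2 h1' h2') (adj_same hx A2 B2 h3 h4 h3' h4')

end Pool.Agent.SzT
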