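import Mathlib

/-!
Project SzT, module Wt: random subsets (each element with probability `π`, independently), as weights.

PAPER PROOF. `wt_sup`: the subsets `U` of `V` containing `S` are the `S ∪ T`, `T ⊆ V \ S`; `|U| = |S| + |T|`, so the sum is `π ^ |S| * ∑ T ⊆ V \ S, π ^ |T| (1 - π) ^ (|V \ S| - |T|) = π ^ |S|` (`Finset.sum_pow_mul_eq_add_pow` or
`Finset.prod_add`). `wt_mean`: exchange the sums, `wt_sup` for `S = g t`. `wt_exists`: if the mean of `F` is at least `c`, some `U` has `F U ≥ c` (the weights are nonnegative with sum 1).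
-/

set_option autoImplicit false

namespace Pool.Agent.SzT

open Finset

/-- Probability of the subset `U` of `V`. -/
def wt {ι : Type} (π : ℝ) (V U : Finset ι) : ℝ := π ^ U.card * (1 - π) ^ (V.card - U.card)

variable {ι : Type} [DecidableEq ι] {π : ℝ}

theorem wt_nonneg (h0 : 0 ≤ π) (h1 : π ≤ 1) (V U : Finset ι) : 0 ≤ wt π V U :=
  mul_nonneg (pow_nonneg h0 _) (pow_nonneg (by linarith) _)

theorem wt_sup {S V : Finset ι} (h : S ⊆ V) : ∑ U ∈ V.powerset.filter (fun U => S ⊆ U), wt π V U = π ^ S.card := by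
  have hdis : ∀ T : Finset ι, T ⊆ V \ S → Disjoint S T := fun T hT =>
    Finset.disjoint_of_subset_right hT Finset.disjoint_sdiff
  have h1 : ∑ T ∈ (V \ S).powerset, π ^ S.card * (π ^ T.card * (1 - π) ^ ((V \ S).card - T.card)) =
      ∑ U ∈ V.powerset.filter (fun U => S ⊆ U), wt π V U := by
    refine Finset.sum_bij (fun T _ => S ∪ T) ?_ ?_ ?_ ?_
    · intro T hT
      rw [mem_powerset] at hT
      rw [mem_filter, mem_powerset]
      exact ⟨union_subset h (hT.trans sdiff_subset), subset_union_left⟩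
    · intro T hT T' hT' e
      rw [mem_powerset] at hT hT'
      have e1 : (S ∪ T) \ S = T := union_sdiff_cancel_left (hdis T hT)
      have e2 : (S ∪ T') \ S = T' := union_sdiff_cancel_left (hdis T' hT')
      have e3 : S ∪ T = S ∪ T' := e
      rw [← e1, ← e2, e3]
    · intro U hU
      rw [mem_filter, mem_powerset] at hU
      exact ⟨U \ S, mem_powerset.2 (sdiff_subset_sdiff hU.1 subset_rfl), union_sdiff_of_subset hU.2⟩
    · intro T hT
      rw [mem_powerset] at hT
      unfold wt
      rw [card_union_of_disjoint (hdis T hT), card_sdiff_of_subset h, pow_add, mul_assoc, Nat.sub_sub]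
  rw [← h1, ← mul_sum, sum_pow_mul_eq_add_pow]
  simp

theorem wt_mean {τ : Type} (T : Finset τ) (g : τ → Finset ι) (V : Finset ι) (m : ℕ) (h : ∀ t ∈ T, g t ⊆ V ∧ (g t).card = m) :
    ∑ U ∈ V.powerset, wt π V U * ((T.filter fun t => g t ⊆ U).card : ℝ) = π ^ m * T.card := by
  have h1 : ∀ U : Finset ι, wt π V U * ((T.filter fun t => g t ⊆ U).card : ℝ) =
      ∑ t ∈ T, if g t ⊆ U then wt π V U else 0 := by
    intro U
    rw [← Finset.sum_filter, Finset.sum_const, nsmul_eq_mul, mul_comm]
  simp only [h1]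
  rw [Finset.sum_comm]
  have h2 : ∀ t ∈ T, (∑ U ∈ V.powerset, if g t ⊆ U then wt π V U else 0) = π ^ m := by
    intro t ht
    rw [← Finset.sum_filter, wt_sup (h t ht).1, (h t ht).2]
  rw [Finset.sum_congr rfl h2, Finset.sum_const, nsmul_eq_mul, mul_comm]

theorem wt_card (V : Finset ι) : ∑ U ∈ V.powerset, wt π V U * (U.card : ℝ) = π * V.card := by
  have h1 := wt_mean (π := π) V (fun t => {t}) V 1 (fun t ht => ⟨singleton_subset_iff.2 ht, card_singleton t⟩)
  rw [pow_one] at h1
  rw [← h1]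
  refine Finset.sum_congr rfl fun U hU => ?_
  rw [mem_powerset] at hU
  have h2 : (V.filter fun t => ({t} : Finset ι) ⊆ U) = U := by
    ext t
    rw [mem_filter, singleton_subset_iff]
    exact ⟨fun h => h.2, fun h => ⟨hU h, h⟩⟩
  rw [h2]

theorem wt_exists (h0 : 0 ≤ π) (h1 : π ≤ 1) (V : Finset ι) (F : Finset ι → ℝ) (c : ℝ)
    (h : c ≤ ∑ U ∈ V.powerset, wt π V U * F U) : ∃ U ∈ V.powerset, c ≤ F U := by
  by_contra hcon
  push Not at hcon
  have hs : ∑ U ∈ V.powerset, wt π V U = 1 := by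
    have := wt_sup (π := π) (empty_subset V)
    simpa using this
  have h2 : ∑ U ∈ V.powerset, wt π V U * (c - F U) ≤ 0 := by
    simp only [mul_sub, Finset.sum_sub_distrib, ← Finset.sum_mul, hs]
    linarith
  have h3 : ∀ U ∈ V.powerset, 0 ≤ wt π V U * (c - F U) := fun U hU =>
    mul_nonneg (wt_nonneg h0 h1 V U) (by have := hcon U hU; linarith)
  have h4 := (Finset.sum_eq_zero_iff_of_nonneg h3).1 (le_antisymm h2 (Finset.sum_nonneg h3))
  have h5 : ∀ U ∈ V.powerset, wt π V U = 0 := fun U hU =>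
    (mul_eq_zero.1 (h4 U hU)).resolve_right (by have := hcon U hU; linarith)
  rw [Finset.sum_eq_zero h5] at hs
  norm_num at hs

end Pool.Agent.SzT
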