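import Pool.Agent.SzT.Plane
import Pool.Agent.SzT.Wt

/-!
Project SzT, module Cross: the crossing inequality.

PAPER PROOF. `cr_disj`: let `e`, `f` cross at `t`. If `e.1 = f.1`: both affine functions agree at `x e.1` and at `t > x e.1`, so they have the same slope and are equal; `e.2 ≠ f.2`, so `x e.2 ≠ x f.2` (injectivity); say `x e.2 < x f.2`: the vertex `e.2` is in the
interior of `f`, `y e.2 = ed e (x e.2) = ed f (x e.2)`: contradiction to `Gr.vert`. The same if `e.2 = f.2` (both agree at `x e.2` and `t`; compare `e.1`, `f.1`). If `e.1 = f.2`: `t < x f.2 = x e.1 < t`, absurd; the same for `e.2 = f.1`.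
`cross_le`: let `E0` be the edges which cross no edge; `plane_le` for `E0`; `e ∈ E \ E0` crosses some `f e ∈ E`, `e ↦ (e, f e)` is injective into the crossing pairs. `cross_sample`: for every `U ⊆ V` `cross_le` for the graph induced on `U`:
`E_U = {e ∈ E | {e.1, e.2} ⊆ U}` (it satisfies `Gr x y U E_U`); multiply by `wt π V U` and sum over `U`: `wt_mean` with `m = 2` for the edges, `wt_card` for the vertices, `wt_mean` with `m = 4` for the crossing pairs (`g (e, f) = {e.1, e.2, f.1, f.2}`,
four different elements by `cr_disj`; the crossing pairs of `E_U` are the crossing pairs with `g ⊆ U`).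
-/

set_option autoImplicit false

namespace Pool.Agent.SzT

open Finset

variable {ι : Type} {x y : ι → ℝ} {V : Finset ι} {E : Finset (ι × ι)}

private theorem cross_ed_left (e : ι × ι) : ed x y e (x e.1) = y e.1 := by
  unfold ed
  ring

private theorem cross_ed_right {e : ι × ι} (h : x e.1 < x e.2) : ed x y e (x e.2) = y e.2 := by
  unfold ed
  have h1 : x e.2 - x e.1 ≠ 0 := by
    intro h0
    linarith
  field_simp
  ring

private theorem cross_aff {e f : ι × ι} {s t : ℝ} (hst : s ≠ t) (h1 : ed x y e s = ed x y f s)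
    (h2 : ed x y e t = ed x y f t) (r : ℝ) : ed x y e r = ed x y f r := by
  unfold ed at h1 h2 ⊢
  generalize (y e.2 - y e.1) / (x e.2 - x e.1) = m at h1 h2 ⊢
  generalize (y f.2 - y f.1) / (x f.2 - x f.1) = m' at h1 h2 ⊢
  have h3 : (m - m') * (s - t) = 0 := by linear_combination h1 - h2
  have h4 : m - m' = 0 := by
    rcases mul_eq_zero.1 h3 with h | h
    · exact h
    · exact absurd (sub_eq_zero.1 h) hst
  have h5 : m = m' := sub_eq_zero.1 h4
  subst h5
  linear_combination h1

theorem cr_disj (hG : Gr x y V E) {e f : ι × ι} (he : e ∈ E) (hf : f ∈ E) (h : Cr x y e f) :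
    e.1 ≠ f.1 ∧ e.1 ≠ f.2 ∧ e.2 ≠ f.1 ∧ e.2 ≠ f.2 := by
  obtain ⟨hne, t, h1, h2, h3, h4, h5⟩ := h
  obtain ⟨he1, he2, hex⟩ := hG.mem e he
  obtain ⟨hf1, hf2, hfx⟩ := hG.mem f hf
  refine ⟨?_, ?_, ?_, ?_⟩
  · intro hc
    have ha : ∀ r, ed x y e r = ed x y f r := by
      refine cross_aff (s := x e.1) (t := t) h1.ne ?_ h5
      rw [cross_ed_left, hc, cross_ed_left]
    have hne2 : x e.2 ≠ x f.2 := by
      intro h
      exact hne (Prod.ext hc (hG.inj he2 hf2 h))
    rcases lt_or_gt_of_ne hne2 with h | h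
    · refine hG.vert f hf e.2 he2 (by rw [← hc]; exact hex) h ?_
      rw [← ha, cross_ed_right hex]
    · refine hG.vert e he f.2 hf2 (by rw [hc]; exact hfx) h ?_
      rw [ha, cross_ed_right hfx]
  · intro hc
    rw [hc] at h1
    linarith
  · intro hc
    rw [hc] at h2
    linarith
  · intro hc
    have ha : ∀ r, ed x y e r = ed x y f r := by
      refine cross_aff (s := x e.2) (t := t) h2.ne' ?_ h5
      rw [cross_ed_right hex, hc, cross_ed_right hfx]
    have hne2 : x e.1 ≠ x f.1 := by
      intro h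
      exact hne (Prod.ext (hG.inj he1 hf1 h) hc)
    rcases lt_or_gt_of_ne hne2 with h | h
    · refine hG.vert e he f.1 hf1 h (by rw [hc]; exact hfx) ?_
      rw [ha, cross_ed_left]
    · refine hG.vert f hf e.1 he1 h (by rw [← hc]; exact hex) ?_
      rw [← ha, cross_ed_left]

open Classical in
theorem cross_le (hG : Gr x y V E) : E.card ≤ 3 * V.card + ((E ×ˢ E).filter fun q => Cr x y q.1 q.2).card := by
  have hG0 : Gr x y V (E.filter fun e => ∀ f ∈ E, ¬ Cr x y e f) :=
    ⟨hG.inj, fun e he => hG.mem e (Finset.mem_filter.1 he).1, fun e he => hG.vert e (Finset.mem_filter.1 he).1⟩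
  have h0 : (E.filter fun e => ∀ f ∈ E, ¬ Cr x y e f).card ≤ 3 * V.card := by
    refine plane_le hG0 fun e he f hf => ?_
    exact (Finset.mem_filter.1 he).2 f (Finset.mem_filter.1 hf).1
  have h1 : (E.filter fun e => ¬ ∀ f ∈ E, ¬ Cr x y e f).card ≤
      ((E ×ˢ E).filter fun q => Cr x y q.1 q.2).card := by
    have key : ∀ e ∈ E.filter (fun e => ¬ ∀ f ∈ E, ¬ Cr x y e f), ∃ f ∈ E, Cr x y e f := by
      intro e he
      have h2 := (Finset.mem_filter.1 he).2
      push Not at h2
      exact h2
    choose! g hg1 hg2 using key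
    refine Finset.card_le_card_of_injOn (fun e => (e, g e)) ?_ ?_
    · intro e he
      have he' : e ∈ E.filter (fun e => ¬ ∀ f ∈ E, ¬ Cr x y e f) := he
      rw [Finset.mem_coe, Finset.mem_filter, Finset.mem_product]
      exact ⟨⟨(Finset.mem_filter.1 he').1, hg1 e he'⟩, hg2 e he'⟩
    · intro e _ e' _ hee
      exact congrArg Prod.fst hee
  have h2 := Finset.card_filter_add_card_filter_not (s := E) (fun e => ∀ f ∈ E, ¬ Cr x y e f)
  omega

open Classical in
theorem cross_sample (hG : Gr x y V E) {π : ℝ} (h0 : 0 ≤ π) (h1 : π ≤ 1) :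
    π ^ 2 * (E.card : ℝ) ≤ 3 * (π * V.card) + π ^ 4 * (((E ×ˢ E).filter fun q => Cr x y q.1 q.2).card : ℝ) := by
  set C : Finset ((ι × ι) × (ι × ι)) := (E ×ˢ E).filter fun q => Cr x y q.1 q.2 with hC
  set g2 : ι × ι → Finset ι := fun e => {e.1, e.2} with hg2
  set g4 : (ι × ι) × (ι × ι) → Finset ι := fun q => {q.1.1, q.1.2, q.2.1, q.2.2} with hg4
  have hne : ∀ e ∈ E, e.1 ≠ e.2 := by
    intro e he h
    have := (hG.mem e he).2.2
    rw [h] at this
    exact lt_irrefl _ this
  have m2 := wt_mean (π := π) E g2 V 2 (by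
    intro e he
    obtain ⟨he1, he2, hex⟩ := hG.mem e he
    refine ⟨?_, ?_⟩
    · intro z hz
      simp only [hg2, Finset.mem_insert, Finset.mem_singleton] at hz
      rcases hz with rfl | rfl
      · exact he1
      · exact he2
    · exact Finset.card_pair (hne e he))
  have m4 := wt_mean (π := π) C g4 V 4 (by
    intro q hq
    rw [hC, Finset.mem_filter, Finset.mem_product] at hq
    obtain ⟨⟨hq1, hq2⟩, hq3⟩ := hq
    obtain ⟨d1, d2, d3, d4⟩ := cr_disj hG hq1 hq2 hq3
    obtain ⟨he1, he2, -⟩ := hG.mem q.1 hq1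
    obtain ⟨hf1, hf2, -⟩ := hG.mem q.2 hq2
    refine ⟨?_, ?_⟩
    · intro z hz
      simp only [hg4, Finset.mem_insert, Finset.mem_singleton] at hz
      rcases hz with rfl | rfl | rfl | rfl
      · exact he1
      · exact he2
      · exact hf1
      · exact hf2
    · simp only [hg4]
      rw [Finset.card_insert_of_notMem (by simp [hne q.1 hq1, d1, d2]),
        Finset.card_insert_of_notMem (by simp [d3, d4]),
        Finset.card_insert_of_notMem (by simp [hne q.2 hq2]), Finset.card_singleton])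
  have m1 := wt_card (π := π) V
  rw [← m2, ← m4, ← m1, Finset.mul_sum, ← Finset.sum_add_distrib]
  refine Finset.sum_le_sum fun U hU => ?_
  rw [Finset.mem_powerset] at hU
  have hGU : Gr x y U (E.filter fun e => g2 e ⊆ U) := by
    refine ⟨hG.inj.mono (by exact_mod_cast hU), ?_, ?_⟩
    · intro e he
      rw [Finset.mem_filter] at he
      refine ⟨he.2 (by simp [hg2]), he.2 (by simp [hg2]), (hG.mem e he.1).2.2⟩
    · intro e he z hz
      rw [Finset.mem_filter] at he
      exact hG.vert e he.1 z (hU hz)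
  have k1 := cross_le hGU
  have k2 : (((E.filter fun e => g2 e ⊆ U) ×ˢ (E.filter fun e => g2 e ⊆ U)).filter
      fun q => Cr x y q.1 q.2).card ≤ (C.filter fun q => g4 q ⊆ U).card := by
    refine Finset.card_le_card ?_
    intro q hq
    rw [Finset.mem_filter, Finset.mem_product, Finset.mem_filter, Finset.mem_filter] at hq
    obtain ⟨⟨⟨q1, q2⟩, q3, q4⟩, q5⟩ := hq
    rw [Finset.mem_filter, hC, Finset.mem_filter, Finset.mem_product]
    refine ⟨⟨⟨q1, q3⟩, q5⟩, ?_⟩
    intro z hz
    simp only [hg4, Finset.mem_insert, Finset.mem_singleton] at hz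
    rcases hz with rfl | rfl | rfl | rfl
    · exact q2 (by simp [hg2])
    · exact q2 (by simp [hg2])
    · exact q4 (by simp [hg2])
    · exact q4 (by simp [hg2])
  have k3 : (((E.filter fun e => g2 e ⊆ U).card : ℕ) : ℝ) ≤
      3 * (U.card : ℝ) + ((C.filter fun q => g4 q ⊆ U).card : ℝ) := by
    have k4 := k1.trans (Nat.add_le_add_left k2 _)
    exact_mod_cast k4
  have k5 := mul_le_mul_of_nonneg_left k3 (wt_nonneg h0 h1 V U)
  calc wt π V U * ((E.filter fun e => g2 e ⊆ U).card : ℝ) ≤ _ := k5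
    _ = _ := by ring

end Pool.Agent.SzT
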