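import Pool.Agent.DSV.Defs

/-!
Project SzT (MP_5afd6b_co, captain helper91): every `n` lines in general position contain at least `n ^ (2/15) / 6` lines all of
whose triangles have different areas. Definitions and overview.

(1) `Plane`: a plane straight-line graph on `n` vertices (with different abscissae) has at most `3 n` edges.
(2) `Wt`, `Cross`: the crossing inequality by random sampling.
(3) `Cons`, `Inc`: `n` points with different abscissae and `n` lines with different slopes have at most `5 n ^ (4/3)` incidences.
(4) `UW`: for a fixed line `i` the area of the triangle `i, j, k` is (up to a constant) `(u j - u k) ^ 2 / |w j - w k|`.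
(5) `Par`, `CntA`, `CntB`: the number of triangles `i, j, k` with a given area, and of pairs of triangles with two common lines.
(6) `DelS`, `Fin2`: deletion.
-/

set_option autoImplicit false

namespace Pool.Agent.SzT

/-- The segment with the ends `e.1`, `e.2` as an affine function. -/
noncomputable def ed {ι : Type} (x y : ι → ℝ) (e : ι × ι) (t : ℝ) : ℝ :=
  y e.1 + (y e.2 - y e.1) / (x e.2 - x e.1) * (t - x e.1)

/-- A straight-line graph: the ends of the edges are vertices, ordered by abscissa, and no vertex is in the interior of an edge. -/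
structure Gr {ι : Type} (x y : ι → ℝ) (V : Finset ι) (E : Finset (ι × ι)) : Prop where
  inj : Set.InjOn x (V : Set ι)
  mem : ∀ e ∈ E, e.1 ∈ V ∧ e.2 ∈ V ∧ x e.1 < x e.2
  vert : ∀ e ∈ E, ∀ z ∈ V, x e.1 < x z → x z < x e.2 → y z ≠ ed x y e (x z)

/-- Two different edges cross: they have a common point which is in the interior of both. -/
def Cr {ι : Type} (x y : ι → ℝ) (e f : ι × ι) : Prop :=
  e ≠ f ∧ ∃ t : ℝ, x e.1 < t ∧ t < x e.2 ∧ x f.1 < t ∧ t < x f.2 ∧ ed x y e t = ed x y f t

/-- The point `i` is on the line `j`. -/
def On {ι κ : Type} (x y : ι → ℝ) (α β : κ → ℝ) (i : ι) (j : κ) : Prop := y i = α j + β j * x i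

/-- Area of the triangle of the lines `i, j, k` up to a constant. -/
noncomputable def vv {n : ℕ} (p : Fin n → Fin 3 → ℝ) (i j k : Fin n) : ℝ := DSV.vr (DSV.Mt (d := 2) p ![i, j, k])

end Pool.Agent.SzT
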