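import Pool.Agent.SzT.Wt

/-!
Project SzT, module DelS: deletion.

PAPER PROOF. For `U ⊆ univ` let `F U = |U| - #{t ∈ B4 | image ⊆ U} - #{t ∈ B5 | ...} - #{t ∈ B6 | ...}`. By `wt_card` and `wt_mean` (`g t = univ.image t`, which has `m` elements as `t` is injective) the mean of `F` is
`π n - π ^ 4 |B4| - π ^ 5 |B5| - π ^ 6 |B6| ≥ π n / 2`. Take `U` with `F U ≥ π n / 2` (`wt_exists`) and remove `t 0` for every bad `t` with image in `U`: `S = U \ (images of t ↦ t 0)`.
-/

set_option autoImplicit false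

namespace Pool.Agent.SzT

open Finset

private noncomputable def bd {n m : ℕ} (T : Finset (Fin m → Fin n)) (U : Finset (Fin n)) : Finset (Fin m → Fin n) :=
  T.filter fun t => univ.image t ⊆ U

private theorem bd_mean {n m : ℕ} (π : ℝ) (T : Finset (Fin m → Fin n)) (hi : ∀ t ∈ T, Function.Injective t) :
    ∑ U ∈ (univ : Finset (Fin n)).powerset, wt π univ U * ((bd T U).card : ℝ) = π ^ m * T.card := by
  refine wt_mean (π := π) T (fun t => univ.image t) univ m fun t ht => ⟨subset_univ _, ?_⟩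
  rw [card_image_of_injective _ (hi t ht), card_univ, Fintype.card_fin]

private noncomputable def rm {n m : ℕ} (T : Finset (Fin (m + 1) → Fin n)) (U : Finset (Fin n)) : Finset (Fin n) :=
  (bd T U).image fun t => t 0

private theorem rm_card {n m : ℕ} (T : Finset (Fin (m + 1) → Fin n)) (U : Finset (Fin n)) : (rm T U).card ≤ (bd T U).card :=
  card_image_le

private theorem rm_hit {n m : ℕ} (T : Finset (Fin (m + 1) → Fin n)) (U S : Finset (Fin n)) (hSU : S ⊆ U)
    (hS : ∀ x ∈ S, x ∉ rm T U) : ∀ t ∈ T, ∃ a, t a ∉ S := by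
  intro t ht
  by_cases hU : univ.image t ⊆ U
  · refine ⟨0, fun h0 => hS _ h0 ?_⟩
    unfold rm bd
    rw [mem_image]
    exact ⟨t, mem_filter.mpr ⟨ht, hU⟩, rfl⟩
  · by_contra hcon
    push Not at hcon
    apply hU
    intro x hx
    rw [mem_image] at hx
    obtain ⟨a, -, rfl⟩ := hx
    exact hSU (hcon a)

theorem del_gen {n : ℕ} {π : ℝ} (h0 : 0 ≤ π) (h1 : π ≤ 1) (T4 : Finset (Fin 4 → Fin n)) (T5 : Finset (Fin 5 → Fin n))
    (T6 : Finset (Fin 6 → Fin n)) (i4 : ∀ t ∈ T4, Function.Injective t) (i5 : ∀ t ∈ T5, Function.Injective t)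
    (i6 : ∀ t ∈ T6, Function.Injective t)
    (h : π ^ 4 * T4.card + π ^ 5 * T5.card + π ^ 6 * T6.card ≤ π * n / 2) :
    ∃ S : Finset (Fin n), π * n / 2 ≤ S.card ∧ (∀ t ∈ T4, ∃ a, t a ∉ S) ∧ (∀ t ∈ T5, ∃ a, t a ∉ S) ∧
      (∀ t ∈ T6, ∃ a, t a ∉ S) := by
  have hmean : ∑ U ∈ (univ : Finset (Fin n)).powerset, wt π univ U *
      ((U.card : ℝ) - (bd T4 U).card - (bd T5 U).card - (bd T6 U).card) =
      π * n - π ^ 4 * T4.card - π ^ 5 * T5.card - π ^ 6 * T6.card := by
    have hn : ∑ U ∈ (univ : Finset (Fin n)).powerset, wt π univ U * (U.card : ℝ) = π * n := by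
      rw [wt_card, card_univ, Fintype.card_fin]
    rw [← hn, ← bd_mean π T4 i4, ← bd_mean π T5 i5, ← bd_mean π T6 i6, ← sum_sub_distrib, ← sum_sub_distrib,
      ← sum_sub_distrib]
    refine sum_congr rfl fun U _ => ?_
    ring
  obtain ⟨U, -, hU⟩ := wt_exists h0 h1 (univ : Finset (Fin n))
    (fun U => (U.card : ℝ) - (bd T4 U).card - (bd T5 U).card - (bd T6 U).card) (π * n / 2) (by rw [hmean]; linarith)
  refine ⟨U \ (rm T4 U ∪ rm T5 U ∪ rm T6 U), ?_, ?_, ?_, ?_⟩
  · have e1 : U.card ≤ (U \ (rm T4 U ∪ rm T5 U ∪ rm T6 U)).card + (rm T4 U ∪ rm T5 U ∪ rm T6 U).card := by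
      have := le_card_sdiff (rm T4 U ∪ rm T5 U ∪ rm T6 U) U
      omega
    have e2 : (rm T4 U ∪ rm T5 U ∪ rm T6 U).card ≤ (rm T4 U).card + (rm T5 U).card + (rm T6 U).card :=
      (card_union_le _ _).trans (Nat.add_le_add_right (card_union_le _ _) _)
    have e3 := rm_card T4 U
    have e4 := rm_card T5 U
    have e5 := rm_card T6 U
    have e6 : U.card ≤ (U \ (rm T4 U ∪ rm T5 U ∪ rm T6 U)).card + (bd T4 U).card + (bd T5 U).card + (bd T6 U).card := by
      omega
    have e7 : (U.card : ℝ) ≤ ((U \ (rm T4 U ∪ rm T5 U ∪ rm T6 U)).card : ℝ) + (bd T4 U).card + (bd T5 U).card + (bd T6 U).card := by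
      exact_mod_cast e6
    linarith
  · refine rm_hit T4 U _ sdiff_subset fun x hx hx' => ?_
    rw [mem_sdiff] at hx
    exact hx.2 (mem_union_left _ (mem_union_left _ hx'))
  · refine rm_hit T5 U _ sdiff_subset fun x hx hx' => ?_
    rw [mem_sdiff] at hx
    exact hx.2 (mem_union_left _ (mem_union_right _ hx'))
  · refine rm_hit T6 U _ sdiff_subset fun x hx hx' => ?_
    rw [mem_sdiff] at hx
    exact hx.2 (mem_union_right _ hx')

end Pool.Agent.SzT
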