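import Pool.Agent.SzT.Ener

/-!
Project SzT, module Dist: a family without bad tuples has distinct areas.

PAPER PROOF. Let `A ≠ B` be subsets of `S` with three elements and equal areas. `DSV.vol_simplex_eq_iff`: `vv` of an enumeration of `A` equals `vv` of an enumeration of `B` (any enumerations, `univ.image ![a, b, c] = {a, b, c}`). If `|A ∩ B| = 2`, `A = {i, j, k}`,
`B = {i, j, l}`: `![i, j, k, l]` is injective and in `B4`, with all values in `S`: contradiction. If `|A ∩ B| = 1`, `A = {i, j, k}`, `B = {i, l, m}`: `![i, j, k, l, m] ∈ B5`. If `A ∩ B` is empty: `B6`. (`|A ∩ B| = 3` gives `A = B`.)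
Use `Finset.card_eq_two`, `card_eq_one`, `card_eq_three` for `A ∩ B`, `A \ B`, `B \ A`.
-/

set_option autoImplicit false

namespace Pool.Agent.SzT

open Finset

/-- Injectivity of a vector of length 3. -/
private theorem Dist_inj3 {n : ℕ} {a b c : Fin n} (h1 : a ≠ b) (h2 : a ≠ c) (h3 : b ≠ c) :
    Function.Injective ![a, b, c] := by
  intro x y hxy
  fin_cases x <;> fin_cases y <;>
    simp_all [Matrix.cons_val_zero, Matrix.cons_val_one, Matrix.cons_val_two]

/-- The image of a vector of length 3. -/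
private theorem Dist_im3 {n : ℕ} (a b c : Fin n) : univ.image ![a, b, c] = {a, b, c} := by
  ext x
  simp only [mem_image, mem_univ, true_and, mem_insert, mem_singleton]
  constructor
  · rintro ⟨i, rfl⟩
    fin_cases i <;> simp
  · rintro (h | h | h)
    · exact ⟨0, by rw [h]; rfl⟩
    · exact ⟨1, by rw [h]; rfl⟩
    · exact ⟨2, by rw [h]; rfl⟩

/-- Equal areas give equal values of `vv`. -/
private theorem Dist_vv {n : ℕ} (p : Fin n → Fin 3 → ℝ) (hp : DSV.Good (d := 2) p) {A B : Finset (Fin n)}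
    (hv : MeasureTheory.volume (DSV.simplex (fun i => DSV.Hyp (d := 2) (p i)) A) =
      MeasureTheory.volume (DSV.simplex (fun i => DSV.Hyp (d := 2) (p i)) B))
    {a b c a' b' c' : Fin n} (h1 : a ≠ b) (h2 : a ≠ c) (h3 : b ≠ c) (h1' : a' ≠ b') (h2' : a' ≠ c') (h3' : b' ≠ c')
    (hA : A = {a, b, c}) (hB : B = {a', b', c'}) : vv p a b c = vv p a' b' c' := by
  refine (DSV.vol_simplex_eq_iff (d := 2) p hp ![a, b, c] ![a', b', c'] (Dist_inj3 h1 h2 h3)
    (Dist_inj3 h1' h2' h3')).1 ?_
  rw [Dist_im3, Dist_im3, ← hA, ← hB]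
  exact hv

theorem dist_of {n : ℕ} (p : Fin n → Fin 3 → ℝ) (hp : DSV.Good (d := 2) p) (S : Finset (Fin n))
    (h4 : ∀ t ∈ B4 p, ∃ a, t a ∉ S) (h5 : ∀ t ∈ B5 p, ∃ a, t a ∉ S) (h6 : ∀ t ∈ B6 p, ∃ a, t a ∉ S) :
    DSV.DistinctVol (fun i => DSV.Hyp (d := 2) (p i)) S := by
  classical
  intro A B hAS hBS hA hB hv
  have hA3 : A.card = 3 := hA
  have hB3 : B.card = 3 := hB
  have hAu : A \ B ∪ A ∩ B = A := Finset.sdiff_union_inter A B
  have hBu : B \ A ∪ A ∩ B = B := by
    rw [Finset.inter_comm]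
    exact Finset.sdiff_union_inter B A
  have hAc : (A \ B).card + (A ∩ B).card = 3 := by
    rw [Finset.card_sdiff_add_card_inter, hA3]
  have hBc : (B \ A).card + (A ∩ B).card = 3 := by
    rw [Finset.inter_comm, Finset.card_sdiff_add_card_inter, hB3]
  have hI : ∀ x ∈ A ∩ B, x ∈ A ∧ x ∈ B := fun x hx => Finset.mem_inter.1 hx
  have hL : ∀ x ∈ A \ B, x ∈ A ∧ x ∉ B := fun x hx => Finset.mem_sdiff.1 hx
  have hR : ∀ x ∈ B \ A, x ∈ B ∧ x ∉ A := fun x hx => Finset.mem_sdiff.1 hx
  have hle : (A ∩ B).card ≤ 3 := by omega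
  have hcases : (A ∩ B).card = 0 ∨ (A ∩ B).card = 1 ∨ (A ∩ B).card = 2 ∨ (A ∩ B).card = 3 := by omega
  rcases hcases with hc | hc | hc | hc
  · exfalso
    obtain ⟨a, b, c, hab, hac, hbc, hAe⟩ := Finset.card_eq_three.1 hA3
    obtain ⟨a', b', c', hab', hac', hbc', hBe⟩ := Finset.card_eq_three.1 hB3
    have hdis : ∀ x ∈ A, ∀ y ∈ B, x ≠ y := by
      intro x hx y hy hxy
      have : x ∈ A ∩ B := Finset.mem_inter.2 ⟨hx, by rw [hxy]; exact hy⟩
      rw [Finset.card_eq_zero.1 hc] at this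
      exact absurd this (Finset.notMem_empty x)
    have ha : a ∈ A := by rw [hAe]; simp
    have hb : b ∈ A := by rw [hAe]; simp
    have hcm : c ∈ A := by rw [hAe]; simp
    have ha' : a' ∈ B := by rw [hBe]; simp
    have hb' : b' ∈ B := by rw [hBe]; simp
    have hc' : c' ∈ B := by rw [hBe]; simp
    have hvv := Dist_vv p hp hv hab hac hbc hab' hac' hbc' hAe hBe
    have hmem : ![a, b, c, a', b', c'] ∈ B6 p := by
      unfold B6
      rw [Finset.mem_filter]
      refine ⟨Finset.mem_univ _, ?_, hvv⟩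
      have e1 := hdis a ha a' ha'
      have e2 := hdis a ha b' hb'
      have e3 := hdis a ha c' hc'
      have e4 := hdis b hb a' ha'
      have e5 := hdis b hb b' hb'
      have e6 := hdis b hb c' hc'
      have e7 := hdis c hcm a' ha'
      have e8 := hdis c hcm b' hb'
      have e9 := hdis c hcm c' hc'
      clear hvv hdis hv hAe hBe hAu hBu hAc hBc hI hL hR h4 h5 h6
      intro x y hxy
      fin_cases x <;> fin_cases y <;> first | rfl | (exfalso; revert hxy; simp; tauto)
    obtain ⟨x, hx⟩ := h6 _ hmem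
    apply hx
    fin_cases x
    · exact hAS ha
    · exact hAS hb
    · exact hAS hcm
    · exact hBS ha'
    · exact hBS hb'
    · exact hBS hc'
  · exfalso
    obtain ⟨i, hIe⟩ := Finset.card_eq_one.1 hc
    obtain ⟨j, k, hjk, hLe⟩ := Finset.card_eq_two.1 (show (A \ B).card = 2 by omega)
    obtain ⟨l, m, hlm, hRe⟩ := Finset.card_eq_two.1 (show (B \ A).card = 2 by omega)
    obtain ⟨iA, iB⟩ := hI i (by rw [hIe]; simp)
    obtain ⟨jA, jB⟩ := hL j (by rw [hLe]; simp)
    obtain ⟨kA, kB⟩ := hL k (by rw [hLe]; simp)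
    obtain ⟨lB, lA⟩ := hR l (by rw [hRe]; simp)
    obtain ⟨mB, mA⟩ := hR m (by rw [hRe]; simp)
    have hAe : A = {i, j, k} := by
      rw [← hAu, hIe, hLe]
      ext x
      simp only [mem_union, mem_insert, mem_singleton]
      tauto
    have hBe : B = {i, l, m} := by
      rw [← hBu, hIe, hRe]
      ext x
      simp only [mem_union, mem_insert, mem_singleton]
      tauto
    have e1 : i ≠ j := fun h => jB (h ▸ iB)
    have e2 : i ≠ k := fun h => kB (h ▸ iB)
    have e3 : i ≠ l := fun h => lA (h ▸ iA)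
    have e4 : i ≠ m := fun h => mA (h ▸ iA)
    have e5 : j ≠ l := fun h => lA (h ▸ jA)
    have e6 : j ≠ m := fun h => mA (h ▸ jA)
    have e7 : k ≠ l := fun h => lA (h ▸ kA)
    have e8 : k ≠ m := fun h => mA (h ▸ kA)
    have hvv := Dist_vv p hp hv e1 e2 hjk e3 e4 hlm hAe hBe
    have hmem : ![i, j, k, l, m] ∈ B5 p := by
      unfold B5
      rw [Finset.mem_filter]
      refine ⟨Finset.mem_univ _, ?_, hvv⟩
      clear hvv hv hAe hBe hAu hBu hAc hBc hI hL hR h4 h5 h6
      intro x y hxy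
      fin_cases x <;> fin_cases y <;> first | rfl | (exfalso; revert hxy; simp; tauto)
    obtain ⟨x, hx⟩ := h5 _ hmem
    apply hx
    fin_cases x
    · exact hAS iA
    · exact hAS jA
    · exact hAS kA
    · exact hBS lB
    · exact hBS mB
  · exfalso
    obtain ⟨i, j, hij, hIe⟩ := Finset.card_eq_two.1 hc
    obtain ⟨k, hLe⟩ := Finset.card_eq_one.1 (show (A \ B).card = 1 by omega)
    obtain ⟨l, hRe⟩ := Finset.card_eq_one.1 (show (B \ A).card = 1 by omega)
    obtain ⟨iA, iB⟩ := hI i (by rw [hIe]; simp)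
    obtain ⟨jA, jB⟩ := hI j (by rw [hIe]; simp)
    obtain ⟨kA, kB⟩ := hL k (by rw [hLe]; simp)
    obtain ⟨lB, lA⟩ := hR l (by rw [hRe]; simp)
    have hAe : A = {i, j, k} := by
      rw [← hAu, hIe, hLe]
      ext x
      simp only [mem_union, mem_insert, mem_singleton]
      tauto
    have hBe : B = {i, j, l} := by
      rw [← hBu, hIe, hRe]
      ext x
      simp only [mem_union, mem_insert, mem_singleton]
      tauto
    have e1 : i ≠ k := fun h => kB (h ▸ iB)
    have e2 : j ≠ k := fun h => kB (h ▸ jB)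
    have e3 : i ≠ l := fun h => lA (h ▸ iA)
    have e4 : j ≠ l := fun h => lA (h ▸ jA)
    have e5 : k ≠ l := fun h => lA (h ▸ kA)
    have hvv := Dist_vv p hp hv hij e1 e2 hij e3 e4 hAe hBe
    have hmem : ![i, j, k, l] ∈ B4 p := by
      unfold B4
      rw [Finset.mem_filter]
      refine ⟨Finset.mem_univ _, ?_, hvv⟩
      clear hvv hv hAe hBe hAu hBu hAc hBc hI hL hR h4 h5 h6
      intro x y hxy
      fin_cases x <;> fin_cases y <;> first | rfl | (exfalso; revert hxy; simp; tauto)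
    obtain ⟨x, hx⟩ := h4 _ hmem
    apply hx
    fin_cases x
    · exact hAS iA
    · exact hAS jA
    · exact hAS kA
    · exact hBS lB
  · have h1 : A ∩ B = A := Finset.eq_of_subset_of_card_le Finset.inter_subset_left (by omega)
    have h2 : A ∩ B = B := Finset.eq_of_subset_of_card_le Finset.inter_subset_right (by omega)
    rw [← h1, h2]

end Pool.Agent.SzT
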