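import Pool.Agent.SzT.UW
import Pool.Agent.SzT.CntA
import Pool.Agent.SzT.CntB

/-!
Project SzT, module Ener: the numbers of pairs of triangles with equal areas and two, one or no common lines.

PAPER PROOF. `b4_card`: for `t 0 = i` fixed, `exists_uw` gives `u, w` (injective on `J = univ \ {i}`), and `t ↦ (t 1, (t 2, t 3))` is an injection of the `t ∈ B4` with `t 0 = i` into the set of `cnt_iso` (`j = t 1`): at most `8 n ^ (5/2)`, times `n`.
`b5_card`: for fixed `(t 0, t 1, t 2)` (at most `n ^ 3` triples), with `s = vv (t 0) (t 1) (t 2) > 0` (`vv_pos`), `t ↦ (t 3, t 4)` is an injection into the set of `cnt_area` for `i = t 0` and this `s`: at most `10 n ^ (4/3)`.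
`b6_card`: for fixed `(t 0, t 1, t 2, t 3)` (at most `n ^ 4`), `t ↦ (t 4, t 5)` is an injection into the set of `cnt_area` for `i = t 3` and `s = vv (t 0) (t 1) (t 2)`.
(`Finset.card_le_mul_card_image` or `card_eq_sum_card_fiberwise`; `n ^ 3 * n ^ (4/3) = n ^ (13/3)`. For `n = 0` everything is empty.)
-/

set_option autoImplicit false

namespace Pool.Agent.SzT

open Finset

open Classical in
/-- Pairs of triangles with two common lines and equal areas. -/
noncomputable def B4 {n : ℕ} (p : Fin n → Fin 3 → ℝ) : Finset (Fin 4 → Fin n) :=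
  univ.filter fun t => Function.Injective t ∧ vv p (t 0) (t 1) (t 2) = vv p (t 0) (t 1) (t 3)

open Classical in
/-- Pairs of triangles with one common line and equal areas. -/
noncomputable def B5 {n : ℕ} (p : Fin n → Fin 3 → ℝ) : Finset (Fin 5 → Fin n) :=
  univ.filter fun t => Function.Injective t ∧ vv p (t 0) (t 1) (t 2) = vv p (t 0) (t 3) (t 4)

open Classical in
/-- Pairs of triangles without common line and with equal areas. -/
noncomputable def B6 {n : ℕ} (p : Fin n → Fin 3 → ℝ) : Finset (Fin 6 → Fin n) :=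
  univ.filter fun t => Function.Injective t ∧ vv p (t 0) (t 1) (t 2) = vv p (t 3) (t 4) (t 5)

private theorem ener_fib {α β : Type} [DecidableEq β] (S : Finset α) (T : Finset β) (f : α → β)
    (h : ∀ a ∈ S, f a ∈ T) (N : ℕ) (hN : T.card ≤ N) (c : ℝ) (hc : 0 ≤ c)
    (hf : ∀ b ∈ T, ((S.filter fun a => f a = b).card : ℝ) ≤ c) : (S.card : ℝ) ≤ N * c := by
  rw [Finset.card_eq_sum_card_fiberwise (f := f) (t := T) (fun a ha => h a ha)]
  push_cast
  refine (Finset.sum_le_sum hf).trans ?_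
  rw [Finset.sum_const, nsmul_eq_mul]
  exact mul_le_mul_of_nonneg_right (by exact_mod_cast hN) hc

private theorem ener_pairs {α : Type} {n : ℕ} (p : Fin n → Fin 3 → ℝ) (hp : DSV.Good (d := 2) p)
    (hn : 0 < n) (i : Fin n) {s : ℝ} (hs : 0 < s) (S : Finset α) (f : α → Fin n × Fin n)
    (h : ∀ t ∈ S, (f t).1 ≠ i ∧ (f t).2 ≠ i ∧ (f t).1 ≠ (f t).2 ∧ vv p i (f t).1 (f t).2 = s)
    (hf : ∀ t ∈ S, ∀ t' ∈ S, f t = f t' → t = t') :
    (S.card : ℝ) ≤ 10 * (n : ℝ) ^ (4 / 3 : ℝ) := by
  classical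
  obtain ⟨u, w, huw⟩ := exists_uw p hp i
  have hJ : (univ.erase i).card ≤ n := by
    refine (Finset.card_le_univ _).trans ?_
    rw [Fintype.card_fin]
  have hu : Set.InjOn u ((univ.erase i : Finset (Fin n)) : Set (Fin n)) := by
    intro j hj k hk hjk
    by_contra hne
    exact (huw j k (Finset.ne_of_mem_erase hj) (Finset.ne_of_mem_erase hk) hne).1 hjk
  refine le_trans ?_ (cnt_area (univ.erase i) u w hu hn hJ hs)
  rw [Nat.cast_le]
  refine Finset.card_le_card_of_injOn f ?_ (fun t ht t' ht' heq => hf t ht t' ht' heq)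
  intro t ht
  obtain ⟨h1, h2, h3, h4⟩ := h t ht
  rw [Finset.mem_coe, Finset.mem_filter, Finset.mem_product]
  refine ⟨⟨Finset.mem_erase.2 ⟨h1, mem_univ _⟩, Finset.mem_erase.2 ⟨h2, mem_univ _⟩⟩, ?_⟩
  rw [← (huw _ _ h1 h2 h3).2.2]
  exact h4

open Classical in
private theorem ener_iso {ι α : Type} (J : Finset ι) (u w : ι → ℝ) (hu : Set.InjOn u (J : Set ι))
    (hw : Set.InjOn w (J : Set ι)) {n : ℕ} (hn : 1 ≤ n) (hJ : J.card ≤ n) (S : Finset α)
    (f : α → ι × (ι × ι)) (h : ∀ t ∈ S, (f t).1 ∈ J ∧ (f t).2.1 ∈ J ∧ (f t).2.2 ∈ J ∧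
      (f t).2.1 ≠ (f t).1 ∧ (f t).2.2 ≠ (f t).1 ∧ (u (f t).1 - u (f t).2.1) ^ 2 / |w (f t).1 - w (f t).2.1| =
        (u (f t).1 - u (f t).2.2) ^ 2 / |w (f t).1 - w (f t).2.2|)
    (hf : ∀ t ∈ S, ∀ t' ∈ S, f t = f t' → t = t') : (S.card : ℝ) ≤ 8 * (n : ℝ) ^ (5 / 2 : ℝ) := by
  refine le_trans ?_ (cnt_iso J u w hu hw hn hJ)
  rw [Nat.cast_le]
  refine Finset.card_le_card_of_injOn f ?_ (fun t ht t' ht' heq => hf t ht t' ht' heq)
  intro t ht
  obtain ⟨h1, h2, h3, h4, h5, h6⟩ := h t ht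
  exact Finset.mem_coe.2 (Finset.mem_filter.2 ⟨Finset.mem_product.2
    ⟨h1, Finset.mem_product.2 ⟨h2, h3⟩⟩, h4, h5, h6⟩)

theorem b4_card {n : ℕ} (p : Fin n → Fin 3 → ℝ) (hp : DSV.Good (d := 2) p) :
    ((B4 p).card : ℝ) ≤ 8 * (n : ℝ) ^ (7 / 2 : ℝ) := by
  classical
  rcases Nat.eq_zero_or_pos n with hn | hn
  · subst hn
    have h0 : (B4 p).card = 0 := by
      rw [Finset.card_eq_zero, Finset.eq_empty_iff_forall_notMem]
      intro t _
      exact (t 0).elim0
    rw [h0]
    simp
  have hn1 : (0 : ℝ) < n := by exact_mod_cast hn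
  have h1 := ener_fib (B4 p) (univ : Finset (Fin n)) (fun t => t 0) (fun t _ => mem_univ _) n
    (by rw [Finset.card_univ, Fintype.card_fin]) (8 * (n : ℝ) ^ (5 / 2 : ℝ)) (by positivity) ?_
  · refine h1.trans (le_of_eq ?_)
    have h2 : (n : ℝ) ^ (7 / 2 : ℝ) = n * (n : ℝ) ^ (5 / 2 : ℝ) := by
      rw [show (7 / 2 : ℝ) = 1 + 5 / 2 by norm_num, Real.rpow_add hn1, Real.rpow_one]
    rw [h2]
    ring
  · intro i _
    obtain ⟨u, w, huw⟩ := exists_uw p hp i
    have hJ : (univ.erase i).card ≤ n := by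
      refine (Finset.card_le_univ _).trans ?_
      rw [Fintype.card_fin]
    have hu : Set.InjOn u ((univ.erase i : Finset (Fin n)) : Set (Fin n)) := by
      intro j hj k hk hjk
      by_contra hne
      exact (huw j k (Finset.ne_of_mem_erase hj) (Finset.ne_of_mem_erase hk) hne).1 hjk
    have hw : Set.InjOn w ((univ.erase i : Finset (Fin n)) : Set (Fin n)) := by
      intro j hj k hk hjk
      by_contra hne
      exact (huw j k (Finset.ne_of_mem_erase hj) (Finset.ne_of_mem_erase hk) hne).2.1 hjk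
    refine ener_iso (univ.erase i) u w hu hw hn hJ _ (fun t => (t 1, (t 2, t 3))) ?_ ?_
    · intro t ht
      obtain ⟨htB, hti⟩ := Finset.mem_filter.1 ht
      obtain ⟨-, hinj, hv⟩ := Finset.mem_filter.1 htB
      rw [← hti] at huw ⊢
      have n10 : t 1 ≠ t 0 := hinj.ne (by decide)
      have n20 : t 2 ≠ t 0 := hinj.ne (by decide)
      have n30 : t 3 ≠ t 0 := hinj.ne (by decide)
      have n12 : t 1 ≠ t 2 := hinj.ne (by decide)
      have n13 : t 1 ≠ t 3 := hinj.ne (by decide)
      rw [(huw _ _ n10 n20 n12).2.2, (huw _ _ n10 n30 n13).2.2] at hv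
      exact ⟨Finset.mem_erase.2 ⟨n10, mem_univ _⟩, Finset.mem_erase.2 ⟨n20, mem_univ _⟩,
        Finset.mem_erase.2 ⟨n30, mem_univ _⟩, n12.symm, n13.symm, hv⟩
    · intro t ht t' ht' heq
      have e0 : t 0 = t' 0 := (Finset.mem_filter.1 ht).2.trans (Finset.mem_filter.1 ht').2.symm
      simp only [Prod.mk.injEq] at heq
      obtain ⟨e1, e2, e3⟩ := heq
      funext k
      fin_cases k
      · exact e0
      · exact e1
      · exact e2
      · exact e3

theorem b5_card {n : ℕ} (p : Fin n → Fin 3 → ℝ) (hp : DSV.Good (d := 2) p) :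
    ((B5 p).card : ℝ) ≤ 10 * (n : ℝ) ^ (13 / 3 : ℝ) := by
  classical
  rcases Nat.eq_zero_or_pos n with hn | hn
  · subst hn
    have h0 : (B5 p).card = 0 := by
      rw [Finset.card_eq_zero, Finset.eq_empty_iff_forall_notMem]
      intro t _
      exact (t 0).elim0
    rw [h0]
    simp
  have hn1 : (0 : ℝ) < n := by exact_mod_cast hn
  have h1 := ener_fib (B5 p) (univ : Finset (Fin n × Fin n × Fin n)) (fun t => (t 0, t 1, t 2))
    (fun t _ => mem_univ _) (n ^ 3)
    (by
      rw [Finset.card_univ, Fintype.card_prod, Fintype.card_prod, Fintype.card_fin]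
      exact le_of_eq (by ring)) (10 * (n : ℝ) ^ (4 / 3 : ℝ)) (by positivity) ?_
  · refine h1.trans (le_of_eq ?_)
    have h2 : (n : ℝ) ^ (13 / 3 : ℝ) = (n : ℝ) ^ 3 * (n : ℝ) ^ (4 / 3 : ℝ) := by
      rw [show (13 / 3 : ℝ) = (3 : ℕ) + 4 / 3 by norm_num, Real.rpow_add hn1, Real.rpow_natCast]
    rw [h2]
    push_cast
    ring
  · rintro ⟨i, j, k⟩ -
    by_cases hex : ∃ t ∈ B5 p, (t 0, t 1, t 2) = (i, j, k)
    · obtain ⟨t0, ht0, het⟩ := hex
      obtain ⟨-, hinj0, -⟩ := Finset.mem_filter.1 ht0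
      simp only [Prod.mk.injEq] at het
      obtain ⟨ei, ej, ek⟩ := het
      have hs : 0 < vv p i j k := by
        rw [← ei, ← ej, ← ek]
        exact vv_pos p hp (hinj0.ne (by decide)) (hinj0.ne (by decide)) (hinj0.ne (by decide))
      exact ener_pairs p hp hn i hs _ (fun t => (t 3, t 4)) (fun t ht => by
        obtain ⟨ht, het⟩ := Finset.mem_filter.1 ht
        simp only [Prod.mk.injEq] at het
        obtain ⟨ei, ej, ek⟩ := het
        obtain ⟨-, hinj, hv⟩ := Finset.mem_filter.1 ht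
        rw [ei, ej, ek] at hv
        refine ⟨?_, ?_, hinj.ne (by decide), hv.symm⟩
        · rw [← ei]
          exact hinj.ne (by decide)
        · rw [← ei]
          exact hinj.ne (by decide)) (fun t ht t' ht' heq => by
        obtain ⟨-, het⟩ := Finset.mem_filter.1 ht
        obtain ⟨-, het'⟩ := Finset.mem_filter.1 ht'
        simp only [Prod.mk.injEq] at het het' heq
        funext k
        fin_cases k
        · exact het.1.trans het'.1.symm
        · exact het.2.1.trans het'.2.1.symm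
        · exact het.2.2.trans het'.2.2.symm
        · exact heq.1
        · exact heq.2)
    · have h0 : ((B5 p).filter fun t => (t 0, t 1, t 2) = (i, j, k)).card = 0 := by
        rw [Finset.card_eq_zero, Finset.eq_empty_iff_forall_notMem]
        intro t ht
        rw [Finset.mem_filter] at ht
        exact hex ⟨t, ht.1, ht.2⟩
      rw [h0, Nat.cast_zero]
      positivity

theorem b6_card {n : ℕ} (p : Fin n → Fin 3 → ℝ) (hp : DSV.Good (d := 2) p) :
    ((B6 p).card : ℝ) ≤ 10 * (n : ℝ) ^ (16 / 3 : ℝ) := by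
  classical
  rcases Nat.eq_zero_or_pos n with hn | hn
  · subst hn
    have h0 : (B6 p).card = 0 := by
      rw [Finset.card_eq_zero, Finset.eq_empty_iff_forall_notMem]
      intro t _
      exact (t 0).elim0
    rw [h0]
    simp
  have hn1 : (0 : ℝ) < n := by exact_mod_cast hn
  have h1 := ener_fib (B6 p) (univ : Finset (Fin n × Fin n × Fin n × Fin n))
    (fun t => (t 0, t 1, t 2, t 3)) (fun t _ => mem_univ _) (n ^ 4)
    (by
      rw [Finset.card_univ, Fintype.card_prod, Fintype.card_prod, Fintype.card_prod,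
        Fintype.card_fin]
      exact le_of_eq (by ring)) (10 * (n : ℝ) ^ (4 / 3 : ℝ)) (by positivity) ?_
  · refine h1.trans (le_of_eq ?_)
    have h2 : (n : ℝ) ^ (16 / 3 : ℝ) = (n : ℝ) ^ 4 * (n : ℝ) ^ (4 / 3 : ℝ) := by
      rw [show (16 / 3 : ℝ) = (4 : ℕ) + 4 / 3 by norm_num, Real.rpow_add hn1, Real.rpow_natCast]
    rw [h2]
    push_cast
    ring
  · rintro ⟨a, b, c, i⟩ -
    by_cases hex : ∃ t ∈ B6 p, (t 0, t 1, t 2, t 3) = (a, b, c, i)
    · obtain ⟨t0, ht0, het⟩ := hex
      obtain ⟨-, hinj0, -⟩ := Finset.mem_filter.1 ht0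
      simp only [Prod.mk.injEq] at het
      obtain ⟨ea, eb, ec, -⟩ := het
      have hs : 0 < vv p a b c := by
        rw [← ea, ← eb, ← ec]
        exact vv_pos p hp (hinj0.ne (by decide)) (hinj0.ne (by decide)) (hinj0.ne (by decide))
      exact ener_pairs p hp hn i hs _ (fun t => (t 4, t 5)) (fun t ht => by
        obtain ⟨ht, het⟩ := Finset.mem_filter.1 ht
        simp only [Prod.mk.injEq] at het
        obtain ⟨ea, eb, ec, ei⟩ := het
        obtain ⟨-, hinj, hv⟩ := Finset.mem_filter.1 ht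
        rw [ea, eb, ec, ei] at hv
        refine ⟨?_, ?_, hinj.ne (by decide), hv.symm⟩
        · rw [← ei]
          exact hinj.ne (by decide)
        · rw [← ei]
          exact hinj.ne (by decide)) (fun t ht t' ht' heq => by
        obtain ⟨-, het⟩ := Finset.mem_filter.1 ht
        obtain ⟨-, het'⟩ := Finset.mem_filter.1 ht'
        simp only [Prod.mk.injEq] at het het' heq
        funext k
        fin_cases k
        · exact het.1.trans het'.1.symm
        · exact het.2.1.trans het'.2.1.symm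
        · exact het.2.2.1.trans het'.2.2.1.symm
        · exact het.2.2.2.trans het'.2.2.2.symm
        · exact heq.1
        · exact heq.2)
    · have h0 : ((B6 p).filter fun t => (t 0, t 1, t 2, t 3) = (a, b, c, i)).card = 0 := by
        rw [Finset.card_eq_zero, Finset.eq_empty_iff_forall_notMem]
        intro t ht
        rw [Finset.mem_filter] at ht
        exact hex ⟨t, ht.1, ht.2⟩
      rw [h0, Nat.cast_zero]
      positivity

end Pool.Agent.SzT
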