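import Pool.Agent.SzT.Dist
import Pool.Agent.SzT.DelS

/-!
Project SzT, module Fin2: the final theorem.

PAPER PROOF. `DSV.exists_good` gives the coefficient vectors `p`. Let `n ≥ 1`, `π = n ^ (-13/15) / 3`. `π ^ 4 |B4| ≤ π * (n ^ (-39/15) / 27) * 8 n ^ (7/2) ≤ (8/27) π n` as `-39/15 + 7/2 = 9/10 ≤ 1`; `π ^ 5 |B5| ≤ π * (n ^ (-52/15) / 81) * 10 n ^ (13/3) ≤ (10/81) π n` as
`-52/15 + 13/3 = 13/15 ≤ 1`; `π ^ 6 |B6| ≤ π (n ^ (-13/3) / 243) * 10 n ^ (16/3) = (10/243) π n`; the sum is at most `π n / 2`. `del_gen`, `dist_of`; `π n / 2 = n ^ (2/15) / 6`.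
-/

set_option autoImplicit false

namespace Pool.Agent.SzT

theorem fin2_aux (n : ℝ) (hn : 1 ≤ n) (k : ℕ) (e : ℝ) (h : -13 / 15 * (k : ℝ) + e ≤ 1) :
    (n ^ (-13 / 15 : ℝ)) ^ k * n ^ e ≤ n := by
  rw [← Real.rpow_natCast, ← Real.rpow_mul (by linarith), ← Real.rpow_add (by linarith)]
  calc n ^ (-13 / 15 * (k : ℝ) + e) ≤ n ^ (1 : ℝ) := Real.rpow_le_rpow_of_exponent_le hn h
    _ = n := Real.rpow_one n

theorem planar_lines {n : ℕ} (hn : 1 ≤ n) (H : Fin n → Set (Fin 2 → ℝ)) (hH : DSV.GenPos H) :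
    ∃ S : Finset (Fin n), (n : ℝ) ^ (2 / 15 : ℝ) / 6 ≤ S.card ∧ DSV.DistinctVol H S := by
  obtain ⟨p, hp, hHp, -⟩ := DSV.exists_good H hH
  have hn' : (1 : ℝ) ≤ n := by exact_mod_cast hn
  have hn0 : (0 : ℝ) < n := by linarith
  obtain ⟨x, hx⟩ : ∃ x : ℝ, x = (n : ℝ) ^ (-13 / 15 : ℝ) := ⟨_, rfl⟩
  have hx0 : 0 < x := by rw [hx]; exact Real.rpow_pos_of_pos hn0 _
  have hx1 : x ≤ 1 := by
    rw [hx]
    exact Real.rpow_le_one_of_one_le_of_nonpos hn' (by norm_num)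
  have a4 : x ^ 3 * (n : ℝ) ^ (7 / 2 : ℝ) ≤ n := by
    rw [hx]
    exact fin2_aux n hn' 3 _ (by norm_num)
  have a5 : x ^ 4 * (n : ℝ) ^ (13 / 3 : ℝ) ≤ n := by
    rw [hx]
    exact fin2_aux n hn' 4 _ (by norm_num)
  have a6 : x ^ 5 * (n : ℝ) ^ (16 / 3 : ℝ) ≤ n := by
    rw [hx]
    exact fin2_aux n hn' 5 _ (by norm_num)
  have b4 : (x / 3) ^ 4 * ((B4 p).card : ℝ) ≤ 8 / 27 * (x / 3 * n) := by
    calc (x / 3) ^ 4 * ((B4 p).card : ℝ) ≤ (x / 3) ^ 4 * (8 * (n : ℝ) ^ (7 / 2 : ℝ)) := by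
          apply mul_le_mul_of_nonneg_left (b4_card p hp) (by positivity)
      _ = 8 / 27 * (x / 3) * (x ^ 3 * (n : ℝ) ^ (7 / 2 : ℝ)) := by ring
      _ ≤ 8 / 27 * (x / 3) * n := by
          apply mul_le_mul_of_nonneg_left a4 (by positivity)
      _ = _ := by ring
  have b5 : (x / 3) ^ 5 * ((B5 p).card : ℝ) ≤ 10 / 81 * (x / 3 * n) := by
    calc (x / 3) ^ 5 * ((B5 p).card : ℝ) ≤ (x / 3) ^ 5 * (10 * (n : ℝ) ^ (13 / 3 : ℝ)) := by
          apply mul_le_mul_of_nonneg_left (b5_card p hp) (by positivity)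
      _ = 10 / 81 * (x / 3) * (x ^ 4 * (n : ℝ) ^ (13 / 3 : ℝ)) := by ring
      _ ≤ 10 / 81 * (x / 3) * n := by
          apply mul_le_mul_of_nonneg_left a5 (by positivity)
      _ = _ := by ring
  have b6 : (x / 3) ^ 6 * ((B6 p).card : ℝ) ≤ 10 / 243 * (x / 3 * n) := by
    calc (x / 3) ^ 6 * ((B6 p).card : ℝ) ≤ (x / 3) ^ 6 * (10 * (n : ℝ) ^ (16 / 3 : ℝ)) := by
          apply mul_le_mul_of_nonneg_left (b6_card p hp) (by positivity)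
      _ = 10 / 243 * (x / 3) * (x ^ 5 * (n : ℝ) ^ (16 / 3 : ℝ)) := by ring
      _ ≤ 10 / 243 * (x / 3) * n := by
          apply mul_le_mul_of_nonneg_left a6 (by positivity)
      _ = _ := by ring
  have hxn : 0 < x / 3 * n := by positivity
  obtain ⟨S, hS, s4, s5, s6⟩ := del_gen (π := x / 3) (by positivity) (by linarith) (B4 p) (B5 p) (B6 p)
    (fun t ht => (Finset.mem_filter.1 ht).2.1) (fun t ht => (Finset.mem_filter.1 ht).2.1)
    (fun t ht => (Finset.mem_filter.1 ht).2.1) (by linarith)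
  refine ⟨S, ?_, ?_⟩
  · refine le_trans (le_of_eq ?_) hS
    have h1 : (n : ℝ) ^ (2 / 15 : ℝ) = x * n := by
      rw [hx]
      nth_rw 3 [← Real.rpow_one (n : ℝ)]
      rw [← Real.rpow_add hn0]
      norm_num
    rw [h1]
    ring
  · have h2 := dist_of p hp S s4 s5 s6
    have h3 : H = fun i => DSV.Hyp (d := 2) (p i) := funext hHp
    rw [h3]
    exact h2

end Pool.Agent.SzT
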