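import Pool.Agent.SzT.Cons
import Pool.Agent.SzT.Cross

/-!
Project SzT, module Inc: incidences of at most `n` points and at most `n` lines (theorem of Szemeredi and Trotter).

PAPER PROOF. `cons` gives the graph `E`; `cross_sample` with `π = n ^ (-1/3)`, divided by `π ^ 2`: `|E| ≤ 3 |P| / π + π ^ 2 |L| ^ 2 ≤ 3 n ^ (4/3) + n ^ (4/3)`, and the number of incidences is at most `|E| + |L| ≤ 4 n ^ (4/3) + n ≤ 5 n ^ (4/3)`.
(If `x = n ^ (1/3)`: `n = x ^ 3`, `π = 1 / x`, `n ^ (4/3) = x ^ 4`.)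
-/

set_option autoImplicit false

namespace Pool.Agent.SzT

open Finset

private theorem inc_num {z E P L X : ℝ} (hz : 1 ≤ z) (hP : P ≤ z ^ 3) (hL0 : 0 ≤ L) (hL : L ≤ z ^ 3)
    (hX : X ≤ L ^ 2) (h : (1 / z) ^ 2 * E ≤ 3 * ((1 / z) * P) + (1 / z) ^ 4 * X) : E + L ≤ 5 * z ^ 4 := by
  have hz0 : 0 < z := by linarith
  have h1 : (1 / z) ^ 2 * E = E * z ^ 2 / z ^ 4 := by
    field_simp
  have h2 : 3 * ((1 / z) * P) + (1 / z) ^ 4 * X = (3 * P * z ^ 3 + X) / z ^ 4 := by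
    field_simp
  rw [h1, h2, div_le_div_iff_of_pos_right (by positivity)] at h
  have h3 : X ≤ (z ^ 3) ^ 2 := hX.trans (pow_le_pow_left₀ hL0 hL 2)
  have h4 : 3 * P * z ^ 3 ≤ 3 * z ^ 3 * z ^ 3 := by
    have : 0 ≤ z ^ 3 := by positivity
    nlinarith
  have h5 : E * z ^ 2 ≤ (4 * z ^ 4) * z ^ 2 := by
    calc E * z ^ 2 ≤ 3 * P * z ^ 3 + X := h
      _ ≤ 3 * z ^ 3 * z ^ 3 + (z ^ 3) ^ 2 := add_le_add h4 h3
      _ = (4 * z ^ 4) * z ^ 2 := by ring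
  have h6 : E ≤ 4 * z ^ 4 := le_of_mul_le_mul_right h5 (by positivity)
  have h7 : z ^ 3 ≤ z ^ 4 := pow_le_pow_right₀ hz (by norm_num)
  linarith

open Classical in
theorem inc_le {ι κ : Type} (x y : ι → ℝ) (α β : κ → ℝ) (P : Finset ι) (L : Finset κ) (hx : Set.InjOn x (P : Set ι))
    (hβ : Set.InjOn β (L : Set κ)) {n : ℕ} (hn : 1 ≤ n) (hP : P.card ≤ n) (hL : L.card ≤ n) :
    (((P ×ˢ L).filter fun q => On x y α β q.1 q.2).card : ℝ) ≤ 5 * (n : ℝ) ^ (4 / 3 : ℝ) := by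
  obtain ⟨E, hG, h1, h2⟩ := cons x y α β P L hx hβ
  obtain ⟨z, hz⟩ : ∃ z : ℝ, z = (n : ℝ) ^ (1 / 3 : ℝ) := ⟨_, rfl⟩
  have hn1 : (1 : ℝ) ≤ n := by exact_mod_cast hn
  have hn0 : (0 : ℝ) ≤ n := by linarith
  have hz1 : 1 ≤ z := by
    rw [hz]
    exact Real.one_le_rpow hn1 (by norm_num)
  have hz0 : 0 < z := by linarith
  have hz3 : z ^ 3 = n := by
    rw [hz, ← Real.rpow_natCast, ← Real.rpow_mul hn0]
    norm_num
  have hz4 : z ^ 4 = (n : ℝ) ^ (4 / 3 : ℝ) := by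
    rw [hz, ← Real.rpow_natCast, ← Real.rpow_mul hn0]
    norm_num
  have h3 := cross_sample hG (π := 1 / z) (by positivity) (by rw [div_le_one hz0]; exact hz1)
  have hP' : (P.card : ℝ) ≤ z ^ 3 := by
    rw [hz3]
    exact_mod_cast hP
  have hL' : (L.card : ℝ) ≤ z ^ 3 := by
    rw [hz3]
    exact_mod_cast hL
  have h2' : (((E ×ˢ E).filter fun q => Cr x y q.1 q.2).card : ℝ) ≤ (L.card : ℝ) ^ 2 := by
    exact_mod_cast h2
  have h1' : (((P ×ˢ L).filter fun q => On x y α β q.1 q.2).card : ℝ) ≤ (E.card : ℝ) + L.card := by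
    exact_mod_cast h1
  rw [← hz4]
  exact h1'.trans (inc_num hz1 hP' (Nat.cast_nonneg _) hL' h2' h3)

end Pool.Agent.SzT
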