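import Pool.Agent.SzT.Defs

/-!
Project SzT, module PlA: next edges, leftmost vertices.

`sl` is the slope of an edge. `Nx E e e'`: `e'` is the next edge above `e` with the same left end. `Wg x y V e e' z`: `z` is a vertex in the wedge between `e` and `e'` (to the right of the left end, not to the
right of the right ends). `Lm`: a leftmost one.

PAPER PROOF. `ed_left`, `ed_right`, `ed_sl`: direct. `sgn_left`: intermediate value theorem for the continuous function `g - f`: if `g a < f a` there would be a zero in `(a, b)` (`intermediate_value_Icc'` or direct as both are continuous);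
stated for `b` with `f b < g b`. `ed_cont`: continuity of `ed`. `lm_exists`: the vertex with the smaller abscissa of `e.2`, `e'.2` satisfies `Wg` (say `x e.2 ≤ x e'.2`: `ed e (x e.2) = y e.2 ≤ ed e' (x e.2)` because the slope of
`e` is smaller and both start at the same point; other case alike); take one with the least abscissa (`Finset.exists_min_image` on `V.filter`).
-/

set_option autoImplicit false

namespace Pool.Agent.SzT

/-- Slope. -/
noncomputable def sl {ι : Type} (x y : ι → ℝ) (e : ι × ι) : ℝ := (y e.2 - y e.1) / (x e.2 - x e.1)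

/-- `e'` is the next edge above `e` with the same left end. -/
def Nx {ι : Type} (x y : ι → ℝ) (E : Finset (ι × ι)) (e e' : ι × ι) : Prop :=
  e ∈ E ∧ e' ∈ E ∧ e.1 = e'.1 ∧ sl x y e < sl x y e' ∧ ∀ f ∈ E, f.1 = e.1 → ¬ (sl x y e < sl x y f ∧ sl x y f < sl x y e')

/-- `z` is a vertex of the wedge. -/
def Wg {ι : Type} (x y : ι → ℝ) (V : Finset ι) (e e' : ι × ι) (z : ι) : Prop :=
  z ∈ V ∧ x e.1 < x z ∧ x z ≤ x e.2 ∧ x z ≤ x e'.2 ∧ ed x y e (x z) ≤ y z ∧ y z ≤ ed x y e' (x z)

/-- A leftmost vertex of the wedge. -/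
def Lm {ι : Type} (x y : ι → ℝ) (V : Finset ι) (e e' : ι × ι) (z : ι) : Prop :=
  Wg x y V e e' z ∧ ∀ z', Wg x y V e e' z' → x z ≤ x z'

variable {ι : Type} {x y : ι → ℝ} {V : Finset ι} {E : Finset (ι × ι)}

theorem ed_left (e : ι × ι) : ed x y e (x e.1) = y e.1 := by
  unfold ed
  rw [sub_self, mul_zero, add_zero]

theorem ed_right {e : ι × ι} (h : x e.1 < x e.2) : ed x y e (x e.2) = y e.2 := by
  unfold ed
  have h1 : x e.2 - x e.1 ≠ 0 := (sub_pos.2 h).ne'
  rw [div_mul_cancel₀ _ h1]
  ring

theorem ed_sl (e : ι × ι) (t : ℝ) : ed x y e t = y e.1 + sl x y e * (t - x e.1) := rfl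

theorem ed_cont (e : ι × ι) : Continuous (ed x y e) := by
  have h : ed x y e = fun t => y e.1 + (y e.2 - y e.1) / (x e.2 - x e.1) * (t - x e.1) := rfl
  rw [h]
  exact continuous_const.add (continuous_const.mul (continuous_id.sub continuous_const))

theorem sgn_left {f g : ℝ → ℝ} (hf : Continuous f) (hg : Continuous g) {a b : ℝ} (hab : a < b) (hb : f b < g b)
    (h : ∀ t, a < t → t < b → f t ≠ g t) : f a ≤ g a := by
  by_contra hcon
  push Not at hcon
  have hc : ContinuousOn (fun t => g t - f t) (Set.Icc a b) := (hg.sub hf).continuousOn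
  have h1 := intermediate_value_Icc hab.le hc
  have h2 : (0 : ℝ) ∈ Set.Icc ((fun t => g t - f t) a) ((fun t => g t - f t) b) :=
    ⟨by simp only; linarith, by simp only; linarith⟩
  obtain ⟨t, ht, ht0⟩ := h1 h2
  simp only at ht0
  have h3 : a < t := by
    refine lt_of_le_of_ne ht.1 ?_
    rintro rfl
    linarith
  have h4 : t < b := by
    refine lt_of_le_of_ne ht.2 ?_
    rintro rfl
    linarith
  exact h t h3 h4 (by linarith)

theorem lm_exists (hG : Gr x y V E) {e e' : ι × ι} (h : Nx x y E e e') : ∃ z, Lm x y V e e' z := by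
  classical
  obtain ⟨he, he', h1, hs, -⟩ := h
  obtain ⟨m1, m2, m3⟩ := hG.mem e he
  obtain ⟨n1, n2, n3⟩ := hG.mem e' he'
  have key : ∃ z, Wg x y V e e' z := by
    rcases le_total (x e.2) (x e'.2) with hle | hle
    · refine ⟨e.2, m2, m3, le_refl _, hle, ?_, ?_⟩
      · rw [ed_right m3]
      · rw [← ed_right (y := y) m3, ed_sl, ed_sl, ← h1]
        have : sl x y e * (x e.2 - x e.1) ≤ sl x y e' * (x e.2 - x e.1) :=
          mul_le_mul_of_nonneg_right hs.le (sub_pos.2 m3).le
        linarith
    · rw [← h1] at n3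
      refine ⟨e'.2, n2, n3, hle, le_refl _, ?_, ?_⟩
      · have n3' : x e'.1 < x e'.2 := by rw [← h1]; exact n3
        rw [← ed_right (y := y) n3', ed_sl, ed_sl, ← h1]
        have : sl x y e * (x e'.2 - x e.1) ≤ sl x y e' * (x e'.2 - x e.1) :=
          mul_le_mul_of_nonneg_right hs.le (sub_pos.2 n3).le
        linarith
      · have n3' : x e'.1 < x e'.2 := by rw [← h1]; exact n3
        rw [ed_right n3']
  have hne : (V.filter (fun z => Wg x y V e e' z)).Nonempty := by
    obtain ⟨z, hz⟩ := key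
    exact ⟨z, Finset.mem_filter.2 ⟨hz.1, hz⟩⟩
  obtain ⟨z, hz, hmin⟩ := Finset.exists_min_image _ x hne
  exact ⟨z, (Finset.mem_filter.1 hz).2, fun z' hz' => hmin z' (Finset.mem_filter.2 ⟨hz'.1, hz'⟩)⟩

end Pool.Agent.SzT
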