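import Pool.Agent.SzT.PlA

/-!
Project SzT, module PlB: a vertex is the right end of the lower edge of at most one of its wedges.

PAPER PROOF. Let `e1 = (u1, z)`, `e2 = (u2, z)` be two such edges, with next edges `e1'`, `e2'`, and suppose `e1 ≠ e2`. Both end at `(x z, y z)`: `ed e (x z) = y z`, so `ed e t = y z + sl e * (t - x z)` for both.
If `sl e1 = sl e2` the two edges agree on `(max (x u1) (x u2), x z)`, against `¬ Cr`. By symmetry let `sl e2 < sl e1`. Then `ed e1 t < ed e2 t` for all `t < x z`. We have `e1'.2 ≠ z` (otherwise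
`e1' = e1`, but the slopes differ), so `x z < x e1'.2` (injectivity, and `x z ≤ x e1'.2` by `Wg`), and `y z ≠ ed e1' (x z)` (`Gr.vert`), so `ed e2 (x z) = y z < ed e1' (x z)`. Also `e2 ≠ e1'` (as `e1'.2 ≠ z`). Let `a = max (x u1) (x u2) < x z`. On `(a, x z)`
`ed e2 ≠ ed e1'` (`¬ Cr e2 e1'`), so by `sgn_left` `ed e2 a ≤ ed e1' a`. Moreover `ed e1 a < ed e2 a`.
(i) `x u1 < x u2`: `a = x u2`, `ed e1 (x u2) ≤ y u2 ≤ ed e1' (x u2)`: `u2` satisfies `Wg` for `e1, e1'`, and `x u2 < x z`: contradiction to `Lm`. (ii) `x u2 ≤ x u1`: `a = x u1`, `y u1 = ed e1 a < ed e2 a ≤ ed e1' a = y u1`,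
a contradiction.
-/

set_option autoImplicit false

namespace Pool.Agent.SzT

variable {ι : Type} {x y : ι → ℝ} {V : Finset ι} {E : Finset (ι × ι)}

/-- The edge as an affine function, from its right end. -/
private theorem ed_from_right {e : ι × ι} (h : x e.1 < x e.2) (t : ℝ) :
    ed x y e t = y e.2 + sl x y e * (t - x e.2) := by
  have h1 := ed_right (x := x) (y := y) h
  rw [ed_sl] at h1 ⊢
  rw [← h1]
  ring

private theorem lm_low_aux (hG : Gr x y V E) (hc : ∀ e ∈ E, ∀ f ∈ E, ¬ Cr x y e f) {e1 e1' e2 : ι × ι} {z : ι}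
    (h1 : Nx x y E e1 e1') (m2 : e2 ∈ E) (l1 : Lm x y V e1 e1' z)
    (z1 : e1.2 = z) (z2 : e2.2 = z) (hs : sl x y e2 < sl x y e1) : False := by
  obtain ⟨m1, m1', hl, hsl, -⟩ := h1
  obtain ⟨⟨zV, w1, w2, w3, w4, w5⟩, hmin⟩ := l1
  obtain ⟨v1, -, x1⟩ := hG.mem e1 m1
  obtain ⟨v1', v1'', x1'⟩ := hG.mem e1' m1'
  obtain ⟨v2, -, x2⟩ := hG.mem e2 m2
  have f1 : ∀ t, ed x y e1 t = y z + sl x y e1 * (t - x z) := by
    intro t
    rw [ed_from_right x1 t, z1]
  have f2 : ∀ t, ed x y e2 t = y z + sl x y e2 * (t - x z) := by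
    intro t
    rw [ed_from_right x2 t, z2]
  have x1z : x e1.1 < x z := w1
  have x2z : x e2.1 < x z := by
    rw [← z2]
    exact x2
  have hne : e1'.2 ≠ z := by
    intro h
    have : e1' = e1 := Prod.ext hl.symm (h.trans z1.symm)
    rw [this] at hsl
    exact lt_irrefl _ hsl
  have hlt : x z < x e1'.2 := by
    refine lt_of_le_of_ne w3 fun h => hne ?_
    exact (hG.inj zV v1'' h).symm
  have x1'z : x e1'.1 < x z := by
    rw [← hl]
    exact x1z
  have hy : y z < ed x y e1' (x z) :=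
    lt_of_le_of_ne w5 (hG.vert e1' m1' z zV x1'z hlt)
  have hne2 : e2 ≠ e1' := by
    intro h
    exact hne (by rw [← h, z2])
  have ha : max (x e1.1) (x e2.1) < x z := max_lt x1z x2z
  have hle : ed x y e2 (max (x e1.1) (x e2.1)) ≤ ed x y e1' (max (x e1.1) (x e2.1)) := by
    refine sgn_left (ed_cont e2) (ed_cont e1') ha ?_ ?_
    · rw [f2]
      simpa using hy
    · intro t ht1 ht2 heq
      refine hc e2 m2 e1' m1' ⟨hne2, t, ?_, ?_, ?_, ?_, heq⟩
      · exact lt_of_le_of_lt (le_max_right _ _) ht1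
      · rw [z2]
        exact ht2
      · rw [← hl]
        exact lt_of_le_of_lt (le_max_left _ _) ht1
      · exact ht2.trans hlt
  have hlt2 : ed x y e1 (max (x e1.1) (x e2.1)) < ed x y e2 (max (x e1.1) (x e2.1)) := by
    rw [f1, f2]
    have : max (x e1.1) (x e2.1) - x z < 0 := by linarith
    nlinarith
  rcases lt_or_ge (x e1.1) (x e2.1) with h | h
  · rw [max_eq_right h.le] at hle hlt2
    have hz := hmin e2.1 ⟨v2, h, ?_, ?_, ?_, ?_⟩
    · exact absurd hz (not_le.2 x2z)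
    · rw [z1]
      exact x2z.le
    · exact (x2z.trans hlt).le
    · rw [ed_left] at hlt2
      exact hlt2.le
    · rw [ed_left] at hle
      exact hle
  · rw [max_eq_left h] at hle hlt2
    have e1l := ed_left (x := x) (y := y) e1
    have e1l' := ed_left (x := x) (y := y) e1'
    rw [← hl] at e1l'
    rw [e1l] at hlt2
    rw [e1l'] at hle
    exact absurd (lt_of_lt_of_le hlt2 hle) (lt_irrefl _)

theorem lm_low (hG : Gr x y V E) (hc : ∀ e ∈ E, ∀ f ∈ E, ¬ Cr x y e f) {e1 e1' e2 e2' : ι × ι} {z : ι}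
    (h1 : Nx x y E e1 e1') (h2 : Nx x y E e2 e2') (l1 : Lm x y V e1 e1' z) (l2 : Lm x y V e2 e2' z)
    (z1 : e1.2 = z) (z2 : e2.2 = z) : e1 = e2 := by
  by_contra hne
  rcases lt_trichotomy (sl x y e1) (sl x y e2) with h | h | h
  · exact lm_low_aux hG hc h2 h1.1 l2 z2 z1 h
  · have x1z : x e1.1 < x z := l1.1.2.1
    have x2z : x e2.1 < x z := l2.1.2.1
    obtain ⟨-, -, x1⟩ := hG.mem e1 h1.1
    obtain ⟨-, -, x2⟩ := hG.mem e2 h2.1
    have ha : max (x e1.1) (x e2.1) < x z := max_lt x1z x2z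
    have hl := le_max_left (x e1.1) (x e2.1)
    have hr := le_max_right (x e1.1) (x e2.1)
    refine hc e1 h1.1 e2 h2.1 ⟨hne, (max (x e1.1) (x e2.1) + x z) / 2, ?_, ?_, ?_, ?_, ?_⟩
    · linarith
    · rw [z1]
      linarith
    · linarith
    · rw [z2]
      linarith
    · rw [ed_from_right x1, ed_from_right x2, z1, z2, h]
  · exact lm_low_aux hG hc h1 h2.1 l1 z1 z2 h

end Pool.Agent.SzT
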