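import Pool.Agent.SzT.PlA

/-!
Project SzT, module PlC: a vertex is leftmost in at most one wedge of whose lower edge it is not the right end.

PAPER PROOF. Let `z` be leftmost in the wedges `e1, e1'` and `e2, e2'`, `e1.2 ≠ z`, `e2.2 ≠ z`, and suppose `e1 ≠ e2`. As `x z ≤ x e1.2` and `e1.2 ≠ z`, `x z < x e1.2` (injectivity), and `y z ≠ ed e1 (x z)` by `Gr.vert`, so `ed e1 (x z) < y z`; the same for `e2`.
`ed e1 (x z) ≠ ed e2 (x z)` by `¬ Cr`. By symmetry (a private lemma with the hypothesis `ed e1 (x z) < ed e2 (x z)`, applied twice) let `ed e1 (x z) < ed e2 (x z) < y z ≤ ed e1' (x z)`. In particular `e2 ≠ e1'`. Let `u1 = e1.1`, `u2 = e2.1`,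
`a = max (x u1) (x u2) < x z`. On `(a, x z)` `ed e2` differs from `ed e1` and from `ed e1'` (`¬ Cr`; the point `t` is in the interior of all three), so by `sgn_left` `ed e1 a ≤ ed e2 a ≤ ed e1' a`.
(i) `x u1 < x u2`: `a = x u2`, `u2` satisfies `Wg` for `e1, e1'`, `x u2 < x z`: contradiction to `Lm`. (ii) `x u2 < x u1`: `a = x u1`, `y u1 ≤ ed e2 a ≤ y u1`: the vertex `u1` is in the interior of `e2` (`x u1 < x z < x e2.2`):
contradiction to `Gr.vert`. (iii) `x u1 = x u2`: `u1 = u2`; then `ed e1 (x z) < ed e2 (x z) < ed e1' (x z)` and `ed_sl` give `sl e1 < sl e2 < sl e1'`: contradiction to `Nx`.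
-/

set_option autoImplicit false

namespace Pool.Agent.SzT

variable {ι : Type} {x y : ι → ℝ} {V : Finset ι} {E : Finset (ι × ι)}

private theorem lm_high_aux (hG : Gr x y V E) (hc : ∀ e ∈ E, ∀ f ∈ E, ¬ Cr x y e f) {e1 e1' e2 e2' : ι × ι} {z : ι}
    (h1 : Nx x y E e1 e1') (h2 : Nx x y E e2 e2') (l1 : Lm x y V e1 e1' z) (l2 : Lm x y V e2 e2' z)
    (z2 : e2.2 ≠ z) (hlt : ed x y e1 (x z) < ed x y e2 (x z)) : False := by
  obtain ⟨e1E, e1E', he1, hs1, hn1⟩ := h1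
  obtain ⟨e2E, e2E', he2, hs2, hn2⟩ := h2
  obtain ⟨⟨zV, a1, a2, a3, a4, a5⟩, m1⟩ := l1
  obtain ⟨⟨-, b1, b2, b3, b4, b5⟩, m2⟩ := l2
  obtain ⟨e1V, e1V2, e1x⟩ := hG.mem e1 e1E
  obtain ⟨e2V, e2V2, e2x⟩ := hG.mem e2 e2E
  have b2' : x z < x e2.2 := by
    refine lt_of_le_of_ne b2 (fun h => z2 ?_)
    exact (hG.inj (Finset.mem_coe.2 zV) (Finset.mem_coe.2 e2V2) h).symm
  have b4' : ed x y e2 (x z) < y z := lt_of_le_of_ne b4 (fun h => hG.vert e2 e2E z zV b1 b2' h.symm)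
  have hlt' : ed x y e2 (x z) < ed x y e1' (x z) := lt_of_lt_of_le b4' a5
  have ne1 : e1 ≠ e2 := by
    rintro rfl
    exact lt_irrefl _ hlt
  have ne2 : e2 ≠ e1' := by
    rintro rfl
    exact lt_irrefl _ hlt'
  have hmax : max (x e1.1) (x e2.1) < x z := max_lt a1 b1
  have k1 : ed x y e1 (max (x e1.1) (x e2.1)) ≤ ed x y e2 (max (x e1.1) (x e2.1)) := by
    refine sgn_left (ed_cont e1) (ed_cont e2) hmax hlt (fun t ht1 ht2 h => ?_)
    refine hc e1 e1E e2 e2E ⟨ne1, t, ?_, ?_, ?_, ?_, h⟩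
    · exact lt_of_le_of_lt (le_max_left _ _) ht1
    · exact lt_of_lt_of_le ht2 a2
    · exact lt_of_le_of_lt (le_max_right _ _) ht1
    · exact lt_of_lt_of_le ht2 b2
  have k2 : ed x y e2 (max (x e1.1) (x e2.1)) ≤ ed x y e1' (max (x e1.1) (x e2.1)) := by
    refine sgn_left (ed_cont e2) (ed_cont e1') hmax hlt' (fun t ht1 ht2 h => ?_)
    refine hc e2 e2E e1' e1E' ⟨ne2, t, ?_, ?_, ?_, ?_, h⟩
    · exact lt_of_le_of_lt (le_max_right _ _) ht1
    · exact lt_of_lt_of_le ht2 b2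
    · rw [← he1]
      exact lt_of_le_of_lt (le_max_left _ _) ht1
    · exact lt_of_lt_of_le ht2 a3
  rcases lt_trichotomy (x e1.1) (x e2.1) with hx | hx | hx
  · rw [max_eq_right hx.le, ed_left] at k1
    rw [max_eq_right hx.le, ed_left] at k2
    have := m1 e2.1 ⟨e2V, hx, (b1.trans_le a2).le, (b1.trans_le a3).le, k1, k2⟩
    exact absurd this (not_le.2 b1)
  · have hu : e1.1 = e2.1 := hG.inj (Finset.mem_coe.2 e1V) (Finset.mem_coe.2 e2V) hx
    have hd : 0 < x z - x e1.1 := by linarith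
    refine hn1 e2 e2E hu.symm ⟨?_, ?_⟩
    · rw [ed_sl, ed_sl, ← hu] at hlt
      have h3 : sl x y e1 * (x z - x e1.1) < sl x y e2 * (x z - x e1.1) := by linarith
      exact lt_of_mul_lt_mul_right h3 hd.le
    · rw [ed_sl, ed_sl, ← hu, ← he1] at hlt'
      have h3 : sl x y e2 * (x z - x e1.1) < sl x y e1' * (x z - x e1.1) := by linarith
      exact lt_of_mul_lt_mul_right h3 hd.le
  · rw [max_eq_left hx.le, ed_left] at k1
    rw [max_eq_left hx.le, he1, ed_left, ← he1] at k2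
    exact hG.vert e2 e2E e1.1 e1V hx (a1.trans b2') (le_antisymm k1 k2)

theorem lm_high (hG : Gr x y V E) (hc : ∀ e ∈ E, ∀ f ∈ E, ¬ Cr x y e f) {e1 e1' e2 e2' : ι × ι} {z : ι}
    (h1 : Nx x y E e1 e1') (h2 : Nx x y E e2 e2') (l1 : Lm x y V e1 e1' z) (l2 : Lm x y V e2 e2' z)
    (z1 : e1.2 ≠ z) (z2 : e2.2 ≠ z) : e1 = e2 := by
  by_contra hne
  obtain ⟨⟨zV, a1, a2, a3, a4, a5⟩, m1⟩ := id l1
  obtain ⟨⟨-, b1, b2, b3, b4, b5⟩, m2⟩ := id l2
  have a2' : x z < x e1.2 := by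
    refine lt_of_le_of_ne a2 (fun h => z1 ?_)
    exact (hG.inj (Finset.mem_coe.2 zV) (Finset.mem_coe.2 (hG.mem e1 h1.1).2.1) h).symm
  have b2' : x z < x e2.2 := by
    refine lt_of_le_of_ne b2 (fun h => z2 ?_)
    exact (hG.inj (Finset.mem_coe.2 zV) (Finset.mem_coe.2 (hG.mem e2 h2.1).2.1) h).symm
  rcases lt_trichotomy (ed x y e1 (x z)) (ed x y e2 (x z)) with h | h | h
  · exact lm_high_aux hG hc h1 h2 l1 l2 z2 h
  · exact hc e1 h1.1 e2 h2.1 ⟨hne, x z, a1, a2', b1, b2', h⟩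
  · exact lm_high_aux hG hc h2 h1 l2 l1 z1 h

end Pool.Agent.SzT
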