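import Pool.Agent.SzT.PlB
import Pool.Agent.SzT.PlC

/-!
Project SzT, module Plane: a plane straight-line graph with `n` vertices has at most `3 n` edges.

PAPER PROOF. Let `E1` be the edges `e` for which there is an `e'` with `Nx E e e'`. The other edges are the edges of greatest slope among those with the same left end, so `e ↦ e.1` is injective on `E \ E1` (if `e.1 = f.1`, `e ≠ f` in `E`: the slopes differ, since otherwise
both edges agree on the common part and cross; say `sl e < sl f`; among the edges with left end `e.1` and slope greater than `sl e` take one with the least slope: it is a next edge of `e`): at most `|V|` edges. For `e ∈ E1` choose `e'` and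
`z` with `Lm` (`lm_exists`), `φ e = z ∈ V`. On `{e ∈ E1 | e.2 = φ e}` `φ` is injective by `lm_low`, on `{e ∈ E1 | e.2 ≠ φ e}` by `lm_high`: at most `2 |V|` edges.
-/

set_option autoImplicit false

namespace Pool.Agent.SzT

variable {ι : Type} {x y : ι → ℝ} {V : Finset ι} {E : Finset (ι × ι)}

private theorem nx_of_lt {e f : ι × ι} (he : e ∈ E) (hf : f ∈ E) (h : e.1 = f.1) (hs : sl x y e < sl x y f) :
    ∃ e', Nx x y E e e' := by
  classical
  have hne : (E.filter fun g => g.1 = e.1 ∧ sl x y e < sl x y g).Nonempty :=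
    ⟨f, Finset.mem_filter.2 ⟨hf, h.symm, hs⟩⟩
  obtain ⟨e', he', hmin⟩ := Finset.exists_min_image _ (sl x y) hne
  obtain ⟨h1, h2, h3⟩ := Finset.mem_filter.1 he'
  refine ⟨e', he, h1, h2.symm, h3, fun g hg hg1 hh => ?_⟩
  have := hmin g (Finset.mem_filter.2 ⟨hg, hg1, hh.1⟩)
  exact absurd hh.2 (not_lt.2 this)

private theorem sl_ne (hG : Gr x y V E) (hc : ∀ e ∈ E, ∀ f ∈ E, ¬ Cr x y e f) {e f : ι × ι} (he : e ∈ E) (hf : f ∈ E)
    (h : e.1 = f.1) (hne : e ≠ f) : sl x y e ≠ sl x y f := by
  intro hs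
  have h1 := (hG.mem e he).2.2
  have h2 := (hG.mem f hf).2.2
  rw [← h] at h2
  have hm : x e.1 < min (x e.2) (x f.2) := lt_min h1 h2
  refine hc e he f hf ⟨hne, (x e.1 + min (x e.2) (x f.2)) / 2, ?_, ?_, ?_, ?_, ?_⟩
  · linarith
  · have := min_le_left (x e.2) (x f.2)
    linarith
  · rw [← h]
    linarith
  · have := min_le_right (x e.2) (x f.2)
    linarith
  · rw [ed_sl, ed_sl, hs, h]

theorem plane_le (hG : Gr x y V E) (hc : ∀ e ∈ E, ∀ f ∈ E, ¬ Cr x y e f) : E.card ≤ 3 * V.card := by
  classical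
  set E1 := E.filter fun e => ∃ e', Nx x y E e e' with hE1
  have hA : (E \ E1).card ≤ V.card := by
    refine Finset.card_le_card_of_injOn (fun e => e.1) (fun e he => ?_) (fun e he f hf h => ?_)
    · exact (hG.mem e (Finset.mem_sdiff.1 he).1).1
    · have he' := Finset.mem_sdiff.1 (Finset.mem_coe.1 he)
      have hf' := Finset.mem_sdiff.1 (Finset.mem_coe.1 hf)
      by_contra hne
      rcases lt_trichotomy (sl x y e) (sl x y f) with h1 | h1 | h1
      · exact he'.2 (Finset.mem_filter.2 ⟨he'.1, nx_of_lt he'.1 hf'.1 h h1⟩)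
      · exact sl_ne hG hc he'.1 hf'.1 h hne h1
      · exact hf'.2 (Finset.mem_filter.2 ⟨hf'.1, nx_of_lt hf'.1 he'.1 h.symm h1⟩)
  have hex : ∀ e : ι × ι, e ∈ E1 → ∃ e' z, Nx x y E e e' ∧ Lm x y V e e' z := by
    intro e he
    obtain ⟨_, e', h⟩ := Finset.mem_filter.1 he
    obtain ⟨z, hz⟩ := lm_exists hG h
    exact ⟨e', z, h, hz⟩
  by_cases hn : Nonempty ι
  · choose! nx φ hnx hφ using hex
    have hV : ∀ e ∈ E1, φ e ∈ V := fun e he => (hφ e he).1.1
    have hB : (E1.filter fun e => e.2 = φ e).card ≤ V.card := by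
      refine Finset.card_le_card_of_injOn φ (fun e he => hV e (Finset.mem_filter.1 he).1) (fun e he f hf h => ?_)
      obtain ⟨he1, he2⟩ := Finset.mem_filter.1 (Finset.mem_coe.1 he)
      obtain ⟨hf1, hf2⟩ := Finset.mem_filter.1 (Finset.mem_coe.1 hf)
      have l2 := hφ f hf1
      rw [← h] at l2 hf2
      exact lm_low hG hc (hnx e he1) (hnx f hf1) (hφ e he1) l2 he2 hf2
    have hC : (E1.filter fun e => ¬ e.2 = φ e).card ≤ V.card := by
      refine Finset.card_le_card_of_injOn φ (fun e he => hV e (Finset.mem_filter.1 he).1) (fun e he f hf h => ?_)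
      obtain ⟨he1, he2⟩ := Finset.mem_filter.1 (Finset.mem_coe.1 he)
      obtain ⟨hf1, hf2⟩ := Finset.mem_filter.1 (Finset.mem_coe.1 hf)
      have l2 := hφ f hf1
      rw [← h] at l2 hf2
      exact lm_high hG hc (hnx e he1) (hnx f hf1) (hφ e he1) l2 he2 hf2
    have h1 := Finset.card_filter_add_card_filter_not (s := E1) (fun e => e.2 = φ e)
    have h2 := Finset.card_sdiff_add_card_eq_card (Finset.filter_subset (fun e => ∃ e', Nx x y E e e') E)
    rw [← hE1] at h2
    omega
  · have : E = ∅ := Finset.eq_empty_of_forall_notMem fun e _ => hn ⟨e.1⟩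
    rw [this]
    simp

end Pool.Agent.SzT
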