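import Pool.Agent.SzT.Defs
import Pool.Agent.DSV.Sim

/-!
Project SzT, module UW: triangle areas for a fixed line.

PAPER PROOF. Write `p j = (b j, a j, c j)` (components `0, 1, 2`), `n j = (a j, c j)`, `D j = a i * c j - c i * a j`, `S j = a i * a j + c i * c j`, `N = a i ^ 2 + c i ^ 2`. `Good` gives `D j ≠ 0` for `j ≠ i` (in particular `N > 0`; if there is no `j ≠ i` the statement is
empty), `det (n j, n k) ≠ 0` and `det (p i, p j, p k) ≠ 0` for different `i, j, k`. Put `w j = S j / (N * D j)`, `u j = b j / D j - b i * w j`. Then `N * (a j * c k - c j * a k) = S j * D k - D j * S k` (identity of Lagrange type, `ring`), so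
`a j * c k - c j * a k = D j * D k * (w j - w k)`, and `det (p i, p j, p k) = b i (a j c k - c j a k) - b j D k + b k D j = D j * D k * (u k - u j)`. The three minors `dl` of `Mt p ![i, j, k]` are `a j c k - c j a k`, `D k`, `D j` (up to sign none). So
`vr = (D j D k) ^ 2 (u k - u j) ^ 2 / (|D j| |D k| |D j| |D k| |w j - w k|)`.
(`Matrix.det_fin_three`, `Matrix.det_fin_two`, `Fin.prod_univ_three`; `dl M i = (M.submatrix i.succAbove Fin.succ).det`.)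
`vv_symm`: `DSV.vr_image` (the image of a permuted triple is the same set).
-/

set_option autoImplicit false

namespace Pool.Agent.SzT

private theorem uw_inj3 {n : ℕ} {i j k : Fin n} (h1 : i ≠ j) (h2 : i ≠ k) (h3 : j ≠ k) :
    Function.Injective ![i, j, k] := by
  intro x y hxy
  fin_cases x <;> fin_cases y <;> simp_all [eq_comm]

private theorem uw_inj2 {n : ℕ} {i j : Fin n} (h1 : i ≠ j) : Function.Injective ![i, j] := by
  intro x y hxy
  fin_cases x <;> fin_cases y <;> simp_all [eq_comm]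

private theorem uw_D {n : ℕ} {p : Fin n → Fin 3 → ℝ} (hp : DSV.Good (d := 2) p) {i j : Fin n}
    (h : i ≠ j) : p i 1 * p j 2 - p i 2 * p j 1 ≠ 0 := by
  have h1 := hp.2 ![i, j] (uw_inj2 h)
  rw [Matrix.det_fin_two] at h1
  exact h1

private theorem uw_det {n : ℕ} (p : Fin n → Fin 3 → ℝ) (i j k : Fin n) :
    (DSV.Mt (d := 2) p ![i, j, k]).det = p i 0 * (p j 1 * p k 2 - p j 2 * p k 1) -
      p j 0 * (p i 1 * p k 2 - p i 2 * p k 1) + p k 0 * (p i 1 * p j 2 - p i 2 * p j 1) := by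
  rw [Matrix.det_fin_three]
  show p i 0 * p j 1 * p k 2 - p i 0 * p j 2 * p k 1 - p i 1 * p j 0 * p k 2 +
    p i 1 * p j 2 * p k 0 + p i 2 * p j 0 * p k 1 - p i 2 * p j 1 * p k 0 = _
  ring

private theorem uw_vv {n : ℕ} (p : Fin n → Fin 3 → ℝ) (i j k : Fin n) :
    vv p i j k = (p i 0 * (p j 1 * p k 2 - p j 2 * p k 1) -
      p j 0 * (p i 1 * p k 2 - p i 2 * p k 1) + p k 0 * (p i 1 * p j 2 - p i 2 * p j 1)) ^ 2 /
      (|p j 1 * p k 2 - p j 2 * p k 1| * |p i 1 * p k 2 - p i 2 * p k 1| *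
        |p i 1 * p j 2 - p i 2 * p j 1|) := by
  unfold vv DSV.vr
  rw [uw_det, sq_abs, Fin.prod_univ_three]
  have e0 : DSV.dl (DSV.Mt (d := 2) p ![i, j, k]) 0 = p j 1 * p k 2 - p j 2 * p k 1 := by
    unfold DSV.dl
    rw [Matrix.det_fin_two]
    rfl
  have e1 : DSV.dl (DSV.Mt (d := 2) p ![i, j, k]) 1 = p i 1 * p k 2 - p i 2 * p k 1 := by
    unfold DSV.dl
    rw [Matrix.det_fin_two]
    rfl
  have e2 : DSV.dl (DSV.Mt (d := 2) p ![i, j, k]) 2 = p i 1 * p j 2 - p i 2 * p j 1 := by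
    unfold DSV.dl
    rw [Matrix.det_fin_two]
    rfl
  rw [e0, e1, e2]

private theorem uw_num {E Dj Dk u1 u2 w1 w2 T : ℝ} (hE : E ≠ 0) (hDj : Dj ≠ 0) (hDk : Dk ≠ 0)
    (h1 : E = Dj * Dk * (w1 - w2)) (h2 : T = Dj * Dk * (u2 - u1)) (hT : T ≠ 0) :
    u1 ≠ u2 ∧ w1 ≠ w2 ∧ T ^ 2 / (|E| * |Dk| * |Dj|) = (u1 - u2) ^ 2 / |w1 - w2| := by
  have hu : u1 ≠ u2 := by
    rintro rfl
    apply hT
    rw [h2, sub_self, mul_zero]
  have hw : w1 ≠ w2 := by
    rintro rfl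
    apply hE
    rw [h1, sub_self, mul_zero]
  refine ⟨hu, hw, ?_⟩
  have hw' : |w1 - w2| ≠ 0 := abs_ne_zero.2 (sub_ne_zero.2 hw)
  have hj : |Dj| ≠ 0 := abs_ne_zero.2 hDj
  have hk : |Dk| ≠ 0 := abs_ne_zero.2 hDk
  rw [h1, h2, abs_mul, abs_mul, div_eq_div_iff (by positivity) hw']
  have e1 : Dj ^ 2 = |Dj| ^ 2 := (sq_abs Dj).symm
  have e2 : Dk ^ 2 = |Dk| ^ 2 := (sq_abs Dk).symm
  rw [mul_pow, mul_pow, e1, e2]
  ring

private theorem uw_E {ai ci aj cj ak ck N Dj Dk : ℝ} (hN : N ≠ 0) (hj : Dj ≠ 0) (hk : Dk ≠ 0)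
    (eN : N = ai ^ 2 + ci ^ 2) (ej : Dj = ai * cj - ci * aj) (ek : Dk = ai * ck - ci * ak) :
    aj * ck - cj * ak = Dj * Dk * ((ai * aj + ci * cj) / (N * Dj) - (ai * ak + ci * ck) / (N * Dk)) := by
  have h : Dj * Dk * ((ai * aj + ci * cj) / (N * Dj) - (ai * ak + ci * ck) / (N * Dk)) =
      ((ai * aj + ci * cj) * Dk - Dj * (ai * ak + ci * ck)) / N := by
    field_simp
  rw [h, eq_div_iff hN, eN, ej, ek]
  ring

private theorem uw_T {bi bj bk E Dj Dk w1 w2 : ℝ} (hj : Dj ≠ 0) (hk : Dk ≠ 0)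
    (hE : E = Dj * Dk * (w1 - w2)) :
    bi * E - bj * Dk + bk * Dj = Dj * Dk * ((bk / Dk - bi * w2) - (bj / Dj - bi * w1)) := by
  have h1 : Dj * Dk * (bk / Dk) = bk * Dj := by field_simp
  have h2 : Dj * Dk * (bj / Dj) = bj * Dk := by field_simp
  have h3 : Dj * Dk * ((bk / Dk - bi * w2) - (bj / Dj - bi * w1)) =
      Dj * Dk * (bk / Dk) - Dj * Dk * (bj / Dj) + bi * (Dj * Dk * (w1 - w2)) := by ring
  rw [h3, h1, h2, ← hE]
  ring

theorem exists_uw {n : ℕ} (p : Fin n → Fin 3 → ℝ) (hp : DSV.Good (d := 2) p) (i : Fin n) : ∃ u w : Fin n → ℝ,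
    ∀ j k : Fin n, j ≠ i → k ≠ i → j ≠ k →
      u j ≠ u k ∧ w j ≠ w k ∧ vv p i j k = (u j - u k) ^ 2 / |w j - w k| := by
  refine ⟨fun j => p j 0 / (p i 1 * p j 2 - p i 2 * p j 1) - p i 0 *
      ((p i 1 * p j 1 + p i 2 * p j 2) / ((p i 1 ^ 2 + p i 2 ^ 2) * (p i 1 * p j 2 - p i 2 * p j 1))),
    fun j => (p i 1 * p j 1 + p i 2 * p j 2) /
      ((p i 1 ^ 2 + p i 2 ^ 2) * (p i 1 * p j 2 - p i 2 * p j 1)), ?_⟩
  intro j k hj hk hjk
  have hDj := uw_D hp hj.symm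
  have hDk := uw_D hp hk.symm
  have hE := uw_D hp hjk
  have hdet := hp.1 ![i, j, k] (uw_inj3 hj.symm hk.symm hjk)
  rw [uw_det] at hdet
  have hN : p i 1 ^ 2 + p i 2 ^ 2 ≠ 0 := by
    intro h0
    have h1 : p i 1 = 0 := by nlinarith [sq_nonneg (p i 1), sq_nonneg (p i 2)]
    have h2 : p i 2 = 0 := by nlinarith [sq_nonneg (p i 1), sq_nonneg (p i 2)]
    apply hDj
    rw [h1, h2]
    ring
  rw [uw_vv]
  have hE' := uw_E (aj := p j 1) (cj := p j 2) (ak := p k 1) (ck := p k 2) hN hDj hDk rfl rfl rfl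
  exact uw_num hE hDj hDk hE' (uw_T hDj hDk hE') hdet

theorem vv_pos {n : ℕ} (p : Fin n → Fin 3 → ℝ) (hp : DSV.Good (d := 2) p) {i j k : Fin n} (h1 : i ≠ j) (h2 : i ≠ k)
    (h3 : j ≠ k) : 0 < vv p i j k :=
  DSV.vr_pos hp (uw_inj3 h1 h2 h3)

theorem vv_symm {n : ℕ} (p : Fin n → Fin 3 → ℝ) (hp : DSV.Good (d := 2) p) {i j k : Fin n} (h1 : i ≠ j) (h2 : i ≠ k)
    (h3 : j ≠ k) : vv p i j k = vv p j i k ∧ vv p i j k = vv p i k j := by
  constructor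
  · refine DSV.vr_image (d := 2) p hp ![i, j, k] ![j, i, k] (uw_inj3 h1 h2 h3)
      (uw_inj3 h1.symm h3 h2) ?_
    ext x
    simp only [Finset.mem_image, Finset.mem_univ, true_and, Fin.exists_fin_succ, Fin.exists_fin_zero]
    simp
    tauto
  · refine DSV.vr_image (d := 2) p hp ![i, j, k] ![i, k, j] (uw_inj3 h1 h2 h3)
      (uw_inj3 h2 h1 h3.symm) ?_
    ext x
    simp only [Finset.mem_image, Finset.mem_univ, true_and, Fin.exists_fin_succ, Fin.exists_fin_zero]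
    simp
    tauto

end Pool.Agent.SzT
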